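import Pool.Agent.TT.E.NormA

set_option autoImplicit false
set_option linter.unusedSectionVars false

/-! Project TT, block E, module E2 (first part): homogeneous primes, prime divisors, dimension. -/

namespace Pool.Agent.TT.E

open Pool.Agent.Helper16 Pool.Agent.Helper16.BB Pool.Agent.Helper16.GT

attribute [local instance] MvPolynomial.gradedAlgebra

variable {K σ : Type} [Field K]

theorem homI_iff (I : Ideal (MvPolynomial σ K)) :
    HomI I ↔ I.IsHomogeneous (MvPolynomial.homogeneousSubmodule σ K) := by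
  constructor
  · intro h n F hF
    have h1 := h F hF n
    rw [← MvPolynomial.decomposition.decompose'_apply] at h1
    exact h1
  · intro h F hF n
    exact MvPolynomial.homogeneousComponent_mem_of_mem h hF n

theorem homI_span {J : Set (MvPolynomial σ K)} (hJ : ∀ F ∈ J, ∃ m, F.IsHomogeneous m) :
    HomI (Ideal.span J) := by
  rw [homI_iff]
  refine Ideal.homogeneous_span _ _ fun F hF => ?_
  obtain ⟨m, hm⟩ := hJ F hF
  exact ⟨m, hm⟩

theorem HomI.sup {I I' : Ideal (MvPolynomial σ K)} (h : HomI I) (h' : HomI I') :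
    HomI (I ⊔ I') := by
  rw [homI_iff] at h h' ⊢
  exact h.sup h'

/-- The homogeneous core of a prime ideal. -/
theorem exists_core (Q : Ideal (MvPolynomial σ K)) (hQ : Q.IsPrime) :
    ∃ Q' : Ideal (MvPolynomial σ K), Q'.IsPrime ∧ HomI Q' ∧ Q' ≤ Q ∧
      ∀ I : Ideal (MvPolynomial σ K), HomI I → I ≤ Q → I ≤ Q' := by
  refine ⟨(Q.homogeneousCore (MvPolynomial.homogeneousSubmodule σ K)).toIdeal,
    hQ.homogeneousCore, ?_, Ideal.toIdeal_homogeneousCore_le _ _, ?_⟩
  · rw [homI_iff]
    exact (Ideal.homogeneousCore _ Q).isHomogeneous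
  · intro I hI hIQ F hF
    rw [← MvPolynomial.sum_homogeneousComponent F]
    refine sum_mem fun i _ => ?_
    exact Ideal.mem_homogeneousCore_of_homogeneous_of_mem
      ⟨i, MvPolynomial.homogeneousComponent_isHomogeneous i F⟩ (hIQ (hI F hF i))

variable [Finite σ]

/-- Every homogeneous prime ideal strictly above `I`, not irrelevant, contains a prime divisor. -/
theorem exists_pd (I Q : Ideal (MvPolynomial σ K)) (hQ : Q.IsPrime) (hQh : HomI Q) (hlt : I < Q)
    (hproj : ∃ j, MvPolynomial.X j ∉ Q) : ∃ P, IsPD I P ∧ P ≤ Q := by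
  let T : Set (Ideal (MvPolynomial σ K)) := {P | P.IsPrime ∧ HomI P ∧ I < P ∧ P ≤ Q}
  have hne : T.Nonempty := ⟨Q, hQ, hQh, hlt, le_refl _⟩
  have hwf : WellFounded (InvImage (· < ·) (fun P : Ideal (MvPolynomial σ K) => P.height)) :=
    InvImage.wf _ wellFounded_lt
  obtain ⟨h1, h2, h3, h4⟩ := hwf.min_mem T hne
  refine ⟨hwf.min T hne, ⟨h1, h2, h3, ?_, ?_⟩, h4⟩
  · obtain ⟨j, hj⟩ := hproj
    exact ⟨j, fun h => hj (h4 h)⟩
  · intro Q' hQ' hQ'h hIQ' hle
    by_contra hne'
    have hlt' : Q' < hwf.min T hne := lt_of_le_of_ne hle hne'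
    have := h1
    have := hQ'
    have h5 : Q'.height < (hwf.min T hne).height := Ideal.height_strict_mono_of_isPrime hlt'
    exact hwf.not_lt_min T (x := Q') ⟨hQ', hQ'h, hIQ', hle.trans h4⟩ h5

section dim

variable {S V : Type} [CommRing S] [IsDomain S] [Algebra K S]
  [AddCommGroup V] [Module K V] [FiniteDimensional K V]

theorem adjoin_basis (L : V →ₗ[K] S) (U : Submodule K V) {n : ℕ} (b : Module.Basis (Fin n) K U) :
    Algebra.adjoin K (L '' (U : Set V)) = Algebra.adjoin K (Set.range fun i => L (b i : V)) := by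
  apply le_antisymm
  · refine Algebra.adjoin_le ?_
    rintro _ ⟨u, hu, rfl⟩
    have h1 : (u : V) = ∑ i, b.repr (⟨u, hu⟩ : U) i • (b i : V) := by
      have h2 := congrArg (fun x : U => (x : V)) (b.sum_repr (⟨u, hu⟩ : U))
      simp only [Submodule.coe_sum, Submodule.coe_smul] at h2
      exact h2.symm
    rw [h1, map_sum]
    refine sum_mem fun i _ => ?_
    rw [map_smul]
    refine Subalgebra.smul_mem _ ?_ _
    exact Algebra.subset_adjoin (Set.mem_range_self i)
  · refine Algebra.adjoin_mono ?_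
    rintro _ ⟨i, rfl⟩
    exact ⟨_, (b i).2, rfl⟩

theorem trdeg_of_int (L : V →ₗ[K] S) (U : Submodule K V) (h : IntU L U) {n : ℕ}
    (b : Module.Basis (Fin n) K U) (hb : AlgebraicIndependent K (fun i => L (b i : V))) :
    Algebra.trdeg K S = n := by
  have h1 : IsTranscendenceBasis K (fun i => L (b i : V)) := by
    rw [hb.isTranscendenceBasis_iff_isAlgebraic, ← adjoin_basis L U b]
    exact Algebra.IsAlgebraic.mk fun f => (h f).isAlgebraic
  rw [← h1.cardinalMk_eq_trdeg, Cardinal.mk_fin]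

end dim

end Pool.Agent.TT.E
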