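import Mathlib
import Pool.Agent.Helper16.GBDefs
import Pool.Agent.Helper16.GT.Stmt
import Pool.Agent.Helper56.BBTrdeg

set_option autoImplicit false
set_option linter.unusedSectionVars false

/-! Project TT, block E: definitions. Selection of curves on `X` avoiding a subset `V(J)` of
codimension two; a linear functional which is constant on all such curves is constant. -/

namespace Pool.Agent.TT.E

open Pool.Agent.Helper16 Pool.Agent.Helper16.BB Pool.Agent.Helper16.GT

variable {K σ : Type} [Field K]

/-- Every form in a set of forms, all homogeneous components of members of `I` are in `I`. -/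
def HomI (I : Ideal (MvPolynomial σ K)) : Prop :=
  ∀ F ∈ I, ∀ n, MvPolynomial.homogeneousComponent n F ∈ I

/-- Good linear forms: `y₀, y₁, …, yₙ` are homogeneous coordinates of a finite morphism from `X` to
the projective space of dimension `n = dim X`, no point of `V(J)` is mapped to `(1 : 0 : … : 0)`,
and the form `G(y₁, …, yₙ)` vanishes on `V(J)`. -/
structure Crd (I : Ideal (MvPolynomial σ K)) (J : Set (MvPolynomial σ K)) {n : ℕ}
    (y0 : MvPolynomial σ K) (y : Fin n → MvPolynomial σ K) (G : MvPolynomial (Fin n) K) :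
    Prop where
  h0 : y0.IsHomogeneous 1
  hy : ∀ i, (y i).IsHomogeneous 1
  indep : AlgebraicIndependent K
    (fun o : Option (Fin n) => (Ideal.Quotient.mk I (o.elim y0 y) : MvPolynomial σ K ⧸ I))
  int : ∀ f : MvPolynomial σ K, ∃ p : Polynomial (MvPolynomial (Option (Fin n)) K), p.Monic ∧
    p.eval₂ (MvPolynomial.aeval (fun o : Option (Fin n) => o.elim y0 y) :
      MvPolynomial (Option (Fin n)) K →ₐ[K] MvPolynomial σ K).toRingHom f ∈ I
  avoid : ∀ (N : Type) [Field N] [Algebra K N] (p : σ → N), p ≠ 0 →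
    (∀ P ∈ I, MvPolynomial.aeval p P = 0) → (∀ i, MvPolynomial.aeval p (y i) = 0) →
    ∃ P ∈ J, MvPolynomial.aeval p P ≠ 0
  hG : ∃ m, 0 < m ∧ G.IsHomogeneous m
  G0 : G ≠ 0
  GJ : MvPolynomial.aeval y G ∈ Ideal.span J ⊔ I

/-- No specialisation of `z` lies in `V(J)`. -/
def Av (I J : Set (MvPolynomial σ K)) {N : Type} [Field N] [Algebra K N] (z : σ → N) : Prop :=
  ∀ (v : Place K N) (y : σ → AlgebraicClosure K), IsSp (wOne σ) I v z y →
    ∃ P ∈ J, MvPolynomial.aeval y P ≠ 0

/-- The functional `φ` is constant on the specialisations of `z`. -/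
def CstOn (I : Set (MvPolynomial σ K)) (φ : Quo (wOne σ) I →ₗ[ℚ] ℚ) {N : Type} [Field N]
    [Algebra K N] (z : σ → N) : Prop :=
  ∀ (v v' : Place K N) (y y' : σ → AlgebraicClosure K), IsSp (wOne σ) I v z y →
    IsSp (wOne σ) I v' z y' → φ (cls (wOne σ) I y) = φ (cls (wOne σ) I y')

end Pool.Agent.TT.E
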