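import Mathlib
import Pool.Agent.Helper16.BBCore2
import Pool.Agent.TT.E.Defs
import Pool.Agent.ThF.OpenA

set_option autoImplicit false
set_option linter.unusedSectionVars false
set_option linter.style.haveILetI false

/-! Project TT, block E, module E3: the curve through a general point.

PLAN. Let `Ω = AlgebraicClosure K`, `I' = Ideal.span I`.
(1) Lying over for the integral extension `MvPolynomial σ K → MvPolynomial σ Ω` (as in
`ThF.open_lift`, `Ideal.exists_ideal_over_prime_of_isIntegral`): a prime `𝔓` of `MvPolynomial σ Ω`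
with `F.map (algebraMap K Ω) ∈ 𝔓 ↔ F ∈ I'`. By `ThF.open_lift` applied to `𝔓`, `x` there is `τ` with
`x' := fun j => τ (x j)` a zero of `𝔓`; `cls x' = cls x` is `cls_conj`; for `F` over `K`,
`aeval x' F = τ (aeval x F)`.
(2) `S' = MvPolynomial σ Ω ⧸ 𝔓`, `R = MvPolynomial (Option (Fin n)) Ω`, `R → S'` given by
`none ↦ y0`, `some i ↦ y i` (mapped to `Ω`). It is injective (kernel `𝔯` is prime and its
contraction to `MvPolynomial (Option (Fin n)) K` is zero by `h.indep`; `R` is integral over the latter: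
`Ideal.eq_bot_of_comap_eq_bot` or similar) and integral (by `h.int` every class of `X j` is integral
over `R`). So `R → S'` has going down (Mathlib.RingTheory.IntegralClosure.GoingDown: instance for
`[IsDomain S] [FaithfulSMul R S] [Algebra.IsIntegral R S] [IsIntegrallyClosed R]`).
(3) Let `a0 = aeval x' y0`, `a i = aeval x' (y i)`; not all `a i` vanish since `G` has positive
degree and `aeval x' (aeval y G) ≠ 0`. Let `ℓ : R → Polynomial Ω` be `none ↦ 1 + (a0 - 1) T`,
`some i ↦ a i * T`: surjective, `𝔩 = ker ℓ` prime, and `𝔩` is contained in the kernel of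
`R → S' → Ω` (evaluation at `x'`; this is `ℓ` followed by `T ↦ 1`). Going down: a prime `Q` of `S'`
contained in the kernel of evaluation at `x'`, with contraction `𝔩`. `S' ⧸ Q` is integral over
`R ⧸ 𝔩 = Ω[T]`, injectively, so its transcendence degree over `Ω` is one. Lying over: a point `p` of
`V(Q)` over `T = 0`, i.e. `aeval p y0 = 1`, `aeval p (y i) = 0` (a maximal ideal of `S'` above `Q` and
above the kernel of `R → Ω`, `none ↦ 1`, `some i ↦ 0`, which contains `𝔩`; a maximal ideal of `S'` is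
a point over `Ω`: `MvPolynomial.isMaximal_iff_eq_vanishingIdeal_singleton`).
(4) `Pool.Agent.Helper30.BBGeo.exists_const_curve` for the preimage `𝔓_Q` of `Q` in
`MvPolynomial σ Ω`: the function field `N`, `z`, with places for `x'` and `p` (coordinates integral,
so `IsSp` holds with scaling factor `1`, see the proof of `ThF.cls_mem_of_open`). `F(z) = 0` iff
`F.map ∈ 𝔓_Q`, so `F(z) = 0` implies `F(x') = 0`, `F(x) = 0`; in particular `z ≠ 0` and
`G(y(z)) ≠ 0`.
(5) `Av`: fix `i0` with `a i0 ≠ 0`. For every `i` the quotient `aeval z (y i) / aeval z (y i0)` is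
algebraic over `K`: let `m` be the minimal polynomial of `a i / a i0` over `K` and `M` its
homogenisation, then `M(y i, y i0)` mapped to `R` is in `𝔩`, so it vanishes at `z`; and
`aeval z (y i0) ≠ 0`. Let `q j = φ (w.res (c * z j))` be a specialisation. If all `aeval q (y i)` are
zero, use `h.avoid`. Otherwise `c * aeval z (y i)` is a unit at `w` for some `i`; all quotients
`aeval z (y j) / aeval z (y i)` are algebraic over `K`, so units or zero at `w`, and
`G(y(z) / y_i(z))` is a nonzero constant (algebraic over `K`), hence a unit, so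
`aeval q (aeval y G) ≠ 0`; by `h.GJ` some `P ∈ J` does not vanish at `q` (elements of `I'` vanish at
`q`). -/

namespace Pool.Agent.TT.E

open Pool.Agent.Helper16 Pool.Agent.Helper16.BB Pool.Agent.Helper16.GT

section Line

variable {Ω ι σ : Type} [Field Ω] [IsAlgClosed Ω] [Finite σ] [Finite ι]

/-- Going down along a line. -/
private theorem fib_line (𝔓 : Ideal (MvPolynomial σ Ω)) (h𝔓 : 𝔓.IsPrime)
    (g : MvPolynomial ι Ω →ₐ[Ω] MvPolynomial σ Ω)
    (hinj : ∀ p, g p ∈ 𝔓 → p = 0)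
    (hint : ∀ j, ∃ q : Polynomial (MvPolynomial ι Ω), q.Monic ∧
      q.eval₂ g.toRingHom (MvPolynomial.X j) ∈ 𝔓)
    (ℓ : MvPolynomial ι Ω →ₐ[Ω] Polynomial Ω) (hℓ : Function.Surjective ℓ)
    (x : σ → Ω) (hx : ∀ Q ∈ 𝔓, MvPolynomial.aeval x Q = 0)
    (hxℓ : ∀ p, MvPolynomial.aeval x (g p) = (ℓ p).eval 1) :
    ∃ 𝔔 : Ideal (MvPolynomial σ Ω), 𝔔.IsPrime ∧ 𝔓 ≤ 𝔔 ∧
      (∀ Q ∈ 𝔔, MvPolynomial.aeval x Q = 0) ∧ (∀ p, g p ∈ 𝔔 ↔ ℓ p = 0) ∧
      Algebra.trdeg Ω (MvPolynomial σ Ω ⧸ 𝔔) = 1 ∧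
      ∃ p : σ → Ω, (∀ Q ∈ 𝔔, MvPolynomial.aeval p Q = 0) ∧
        ∀ r, MvPolynomial.aeval p (g r) = (ℓ r).eval 0 := by
  haveI := h𝔓
  let S' : Type := MvPolynomial σ Ω ⧸ 𝔓
  haveI : IsDomain S' := Ideal.Quotient.isDomain 𝔓
  let f : MvPolynomial ι Ω →ₐ[Ω] S' := (Ideal.Quotient.mkₐ Ω 𝔓).comp g
  letI : Algebra (MvPolynomial ι Ω) S' := f.toRingHom.toAlgebra
  have hf : ∀ p, algebraMap (MvPolynomial ι Ω) S' p = Ideal.Quotient.mk 𝔓 (g p) := fun p => rfl
  haveI : IsScalarTower Ω (MvPolynomial ι Ω) S' :=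
    IsScalarTower.of_algebraMap_eq fun a => (f.commutes a).symm
  have hinj' : Function.Injective (algebraMap (MvPolynomial ι Ω) S') := by
    rw [injective_iff_map_eq_zero]
    intro p hp
    rw [hf] at hp
    exact hinj p (Ideal.Quotient.eq_zero_iff_mem.1 hp)
  haveI : FaithfulSMul (MvPolynomial ι Ω) S' :=
    (faithfulSMul_iff_algebraMap_injective _ _).2 hinj'
  have hX : ∀ j, IsIntegral (MvPolynomial ι Ω) (Ideal.Quotient.mk 𝔓 (MvPolynomial.X j) : S') := by
    intro j
    obtain ⟨q, hq, hq0⟩ := hint j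
    refine ⟨q, hq, ?_⟩
    have h1 := Polynomial.hom_eval₂ q g.toRingHom (Ideal.Quotient.mk 𝔓) (MvPolynomial.X j)
    rw [Ideal.Quotient.eq_zero_iff_mem.2 hq0] at h1
    exact h1.symm
  haveI : Algebra.IsIntegral (MvPolynomial ι Ω) S' := by
    refine ⟨fun s => ?_⟩
    obtain ⟨Q, rfl⟩ := Ideal.Quotient.mk_surjective s
    induction Q using MvPolynomial.induction_on with
    | C a =>
      have h1 : (Ideal.Quotient.mk 𝔓 (MvPolynomial.C a) : S') =
          algebraMap (MvPolynomial ι Ω) S' (MvPolynomial.C a) := by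
        rw [hf, ← MvPolynomial.algebraMap_eq, ← MvPolynomial.algebraMap_eq, AlgHom.commutes]
      rw [h1]
      exact isIntegral_algebraMap
    | add p q hp hq =>
      rw [map_add]
      exact hp.add hq
    | mul_X p j hp =>
      rw [map_mul]
      exact hp.mul (hX j)
  -- the point `x`
  let evx : S' →ₐ[Ω] Ω := Ideal.Quotient.liftₐ 𝔓 (MvPolynomial.aeval x) hx
  have hevx : ∀ Q, evx (Ideal.Quotient.mk 𝔓 Q) = MvPolynomial.aeval x Q := fun Q => rfl
  let Qx : Ideal S' := RingHom.ker evx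
  haveI hQx : Qx.IsPrime := RingHom.ker_isPrime evx
  let 𝔩 : Ideal (MvPolynomial ι Ω) := RingHom.ker ℓ
  haveI h𝔩 : 𝔩.IsPrime := RingHom.ker_isPrime ℓ
  have hle : 𝔩 ≤ Qx.under (MvPolynomial ι Ω) := by
    intro p hp
    rw [Ideal.under_def, Ideal.mem_comap, RingHom.mem_ker, hf, hevx, hxℓ, RingHom.mem_ker.1 hp,
      Polynomial.eval_zero]
  obtain ⟨Q0, hQ0x, hQ0p, hQ0l⟩ :=
    Ideal.exists_ideal_le_liesOver_of_le (p := 𝔩) (q := Qx.under (MvPolynomial ι Ω)) Qx hle
  have hQ0 : ∀ p, Ideal.Quotient.mk 𝔓 (g p) ∈ Q0 ↔ ℓ p = 0 := by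
    intro p
    have h1 : p ∈ 𝔩 ↔ p ∈ Q0.under (MvPolynomial ι Ω) := by
      rw [← Q0.over_def 𝔩]
    rw [RingHom.mem_ker, Ideal.under_def, Ideal.mem_comap, hf] at h1
    exact h1.symm
  let χ : MvPolynomial σ Ω →ₐ[Ω] (S' ⧸ Q0) :=
    (Ideal.Quotient.mkₐ Ω Q0).comp (Ideal.Quotient.mkₐ Ω 𝔓)
  have hχ : Function.Surjective χ :=
    (Ideal.Quotient.mkₐ_surjective Ω Q0).comp (Ideal.Quotient.mkₐ_surjective Ω 𝔓)
  have hχ0 : ∀ Q, Q ∈ RingHom.ker χ ↔ Ideal.Quotient.mk 𝔓 Q ∈ Q0 := fun Q => by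
    rw [RingHom.mem_ker]
    exact Ideal.Quotient.eq_zero_iff_mem
  haveI : IsDomain (S' ⧸ Q0) := Ideal.Quotient.isDomain Q0
  have htr : Algebra.trdeg Ω (S' ⧸ Q0) = 1 := by
    have h1 : Algebra.trdeg Ω (MvPolynomial ι Ω ⧸ 𝔩) = 1 := by
      rw [(Ideal.quotientKerAlgEquivOfSurjective hℓ).trdeg_eq]
      exact Polynomial.trdeg_of_isDomain
    haveI : IsDomain (MvPolynomial ι Ω ⧸ 𝔩) := Ideal.Quotient.isDomain 𝔩
    have h2 := trdeg_add_eq Ω (MvPolynomial ι Ω ⧸ 𝔩) (A := S' ⧸ Q0)
    rw [h1, trdeg_eq_zero, add_zero] at h2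
    exact h2.symm
  let ev0 : MvPolynomial ι Ω →ₐ[Ω] Ω := (Polynomial.aeval (0 : Ω)).comp ℓ
  have hev0 : ∀ r, ev0 r = (ℓ r).eval 0 := fun r => by
    change Polynomial.aeval 0 (ℓ r) = _
    rw [Polynomial.coe_aeval_eq_eval]
  have hev0s : Function.Surjective ev0 := fun a => ⟨MvPolynomial.C a, by
    rw [← MvPolynomial.algebraMap_eq, AlgHom.commutes]
    rfl⟩
  let m0 : Ideal (MvPolynomial ι Ω) := RingHom.ker ev0
  haveI hm0' : m0.IsMaximal := RingHom.ker_isMaximal_of_surjective ev0 hev0s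
  obtain ⟨Q', hQ'0, hQ'p, hQ'c⟩ := Ideal.exists_ideal_over_prime_of_isIntegral m0 Q0 (by
    intro p hp
    rw [Ideal.mem_comap, hf, hQ0] at hp
    rw [RingHom.mem_ker, hev0, hp, Polynomial.eval_zero])
  haveI hQ'm : Q'.IsMaximal := Ideal.isMaximal_of_isIntegral_of_isMaximal_comap
    (R := MvPolynomial ι Ω) Q' (by rw [hQ'c]; exact hm0')
  haveI hQ'm2 : (Q'.comap (Ideal.Quotient.mk 𝔓)).IsMaximal :=
    Ideal.comap_isMaximal_of_surjective _ Ideal.Quotient.mk_surjective
  obtain ⟨p, hp⟩ := MvPolynomial.isMaximal_iff_eq_vanishingIdeal_singleton.1 hQ'm2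
  have hp' : ∀ Q, Ideal.Quotient.mk 𝔓 Q ∈ Q' ↔ MvPolynomial.aeval p Q = 0 := by
    intro Q
    rw [← Ideal.mem_comap, hp, MvPolynomial.mem_vanishingIdeal_singleton_iff]
  refine ⟨RingHom.ker χ, RingHom.ker_isPrime χ, ?_, ?_, ?_, ?_, p, ?_, ?_⟩
  · intro Q hQ
    rw [hχ0, Ideal.Quotient.eq_zero_iff_mem.2 hQ]
    exact zero_mem _
  · intro Q hQ
    have h1 := hQ0x ((hχ0 Q).1 hQ)
    rw [RingHom.mem_ker, hevx] at h1
    exact h1
  · intro r
    rw [hχ0, hQ0]
  · rw [← htr]
    exact (Ideal.quotientKerAlgEquivOfSurjective hχ).trdeg_eq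
  · intro Q hQ
    exact (hp' Q).1 (hQ'0 ((hχ0 Q).1 hQ))
  · intro r
    have h1 : r - MvPolynomial.C ((ℓ r).eval 0) ∈ m0 := by
      rw [RingHom.mem_ker, map_sub, hev0, ← MvPolynomial.algebraMap_eq, AlgHom.commutes]
      exact sub_self _
    rw [← hQ'c, Ideal.mem_comap, hf, hp', map_sub, map_sub, ← MvPolynomial.algebraMap_eq,
      AlgHom.commutes, AlgHom.commutes, sub_eq_zero] at h1
    exact h1

end Line

/-- Elements of the ideal generated by `I` vanish at the zeros of `I`. -/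
private theorem fib_span {K σ : Type} [Field K] {I : Set (MvPolynomial σ K)} {N : Type} [Field N]
    [Algebra K N] (z : σ → N) (hz : ∀ P ∈ I, MvPolynomial.aeval z P = 0)
    (F : MvPolynomial σ K) (hF : F ∈ Ideal.span I) : MvPolynomial.aeval z F = 0 := by
  have h1 : Ideal.span I ≤ RingHom.ker (MvPolynomial.aeval z : MvPolynomial σ K →ₐ[K] N) :=
    Ideal.span_le.2 fun P hP => (RingHom.mem_ker).2 (hz P hP)
  exact (RingHom.mem_ker).1 (h1 hF)

/-- Homogenisation of a polynomial in one variable. -/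
private theorem fib_homog {K B : Type} [Field K] [CommRing B] [Algebra K B] (m : Polynomial K)
    (u w t : B) (h : t * w = u) :
    ∑ k ∈ Finset.range (m.natDegree + 1),
      algebraMap K B (m.coeff k) * u ^ k * w ^ (m.natDegree - k) =
      w ^ m.natDegree * Polynomial.aeval t m := by
  rw [Polynomial.aeval_eq_sum_range, Finset.mul_sum]
  refine Finset.sum_congr rfl fun k hk => ?_
  have hk' : k ≤ m.natDegree := Nat.lt_succ_iff.1 (Finset.mem_range.1 hk)
  have h1 : w ^ m.natDegree = w ^ k * w ^ (m.natDegree - k) := by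
    rw [← pow_add, Nat.add_sub_cancel' hk']
  rw [← h, Algebra.smul_def, mul_pow, h1]
  ring

private theorem fib_alg {K N ι : Type} [Field K] [Field N] [Algebra K N] (β : ι → N)
    (hβ : ∀ i, IsAlgebraic K (β i)) (G : MvPolynomial ι K) :
    IsAlgebraic K (MvPolynomial.aeval β G) := by
  induction G using MvPolynomial.induction_on with
  | C a =>
    rw [MvPolynomial.aeval_C]
    exact isAlgebraic_algebraMap a
  | add p q hp hq =>
    rw [map_add]
    exact hp.add hq
  | mul_X p i hp =>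
    rw [map_mul, MvPolynomial.aeval_X]
    exact hp.mul (hβ i)

private theorem fib_zero {K σ : Type} [Field K] {N : Type} [Field N] [Algebra K N]
    {P : MvPolynomial σ K} {d : ℕ} (hd : P.IsHomogeneous d) (h0 : 0 < d) (z : σ → N)
    (hz : z = 0) : MvPolynomial.aeval z P = 0 := by
  have h1 := ThF.open_aeval_smul hd (0 : N) z
  rw [zero_pow h0.ne', zero_mul] at h1
  rw [← h1]
  congr 2
  funext j
  rw [hz]
  simp

/-- The values of forms at a specialisation. -/
private theorem fib_sp {K σ : Type} [Field K] [Finite σ] {I : Set (MvPolynomial σ K)} {N : Type} [Field N]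
    [Algebra K N] (v : Place K N) (z : σ → N) (q : σ → AlgebraicClosure K)
    (h : IsSp (wOne σ) I v z q) :
    ∃ (c : N) (φ : v.resField →ₐ[K] AlgebraicClosure K), c ≠ 0 ∧
      ∀ F : MvPolynomial σ K, v.val (MvPolynomial.aeval (fun j => c * z j) F) ≤ 1 ∧
        MvPolynomial.aeval q F = φ (v.res (MvPolynomial.aeval (fun j => c * z j) F)) := by
  obtain ⟨hpt, φ, c, hc, hr, hq⟩ := h
  have h0 : scale (wOne σ) c z = fun j => c () * z j := by
    rw [scale_wOne]
    rfl
  rw [h0] at hr hq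
  refine ⟨c (), φ, hc (), fun F => ?_⟩
  obtain ⟨h1, h2⟩ := aeval_res_eq v (fun j => c () * z j) (fun j => hr j) F
  refine ⟨h1, ?_⟩
  rw [← h2]
  have h3 : q = fun j => φ (v.res (c () * z j)) := by
    funext j
    exact hq j
  rw [h3]
  exact (MvPolynomial.comp_aeval_apply (f := fun j => v.res (c () * z j)) φ F).symm

/-- The curve avoids `V(J)`. -/
private theorem fib_av {K σ : Type} [Field K] [Finite σ]
    {I J : Set (MvPolynomial σ K)} {n : ℕ} {y0 : MvPolynomial σ K}
    {y : Fin n → MvPolynomial σ K} {G : MvPolynomial (Fin n) K}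
    (h : Crd (Ideal.span I) J y0 y G) {N : Type} [Field N] [Algebra K N] (z : σ → N)
    (hzG : MvPolynomial.aeval z (MvPolynomial.aeval y G) ≠ 0) (i0 : Fin n)
    (hi0 : MvPolynomial.aeval z (y i0) ≠ 0)
    (halg : ∀ i, IsAlgebraic K (MvPolynomial.aeval z (y i) / MvPolynomial.aeval z (y i0))) :
    Av I J z := by
  intro v q hq
  obtain ⟨hq0, hqI⟩ := (isPoint_wOne I q).1 hq.1
  obtain ⟨c, φ, hc, hF⟩ := fib_sp v z q hq
  obtain ⟨m, hm, hGm⟩ := h.hG
  set β : Fin n → N := fun i => MvPolynomial.aeval z (y i) / MvPolynomial.aeval z (y i0) with hβ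
  have hyc : ∀ i, MvPolynomial.aeval (fun j => c * z j) (y i) =
      (c * MvPolynomial.aeval z (y i0)) * β i := by
    intro i
    rw [ThF.open_aeval_smul (h.hy i), pow_one, hβ, mul_assoc, mul_div_cancel₀ _ hi0]
  set B0 : N := c * MvPolynomial.aeval z (y i0) with hB0
  have hB00 : B0 ≠ 0 := mul_ne_zero hc hi0
  have hB01 : v.val B0 ≤ 1 := by
    have h1 := (hF (y i0)).1
    rw [hyc i0, hβ] at h1
    simpa [div_self hi0] using h1
  have hcomp : ∀ w : σ → N, MvPolynomial.aeval w (MvPolynomial.aeval y G) =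
      MvPolynomial.aeval (fun i => MvPolynomial.aeval w (y i)) G := fun w =>
    MvPolynomial.comp_aeval_apply (f := y) (MvPolynomial.aeval w) G
  have hG1 : MvPolynomial.aeval (fun j => c * z j) (MvPolynomial.aeval y G) =
      B0 ^ m * MvPolynomial.aeval β G := by
    rw [hcomp]
    simp only [hyc]
    exact ThF.open_aeval_smul hGm B0 β
  have hG2 : MvPolynomial.aeval β G ≠ 0 := by
    intro h0
    apply hzG
    rw [hcomp]
    have h1 : (fun i => MvPolynomial.aeval z (y i)) =
        fun i => MvPolynomial.aeval z (y i0) * β i := by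
      funext i
      rw [hβ, mul_div_cancel₀ _ hi0]
    rw [h1, ThF.open_aeval_smul hGm, h0, mul_zero]
  rcases hB01.lt_or_eq with hlt | heq
  · -- all `y i` vanish at `q`
    refine h.avoid (AlgebraicClosure K) q hq0 (fun P hP => fib_span q hqI P hP) fun i => ?_
    obtain ⟨h1, h2⟩ := hF (y i)
    rw [h2, hyc i]
    have h3 : v.val (B0 * β i) < 1 := by
      rw [map_mul]
      by_cases hb : β i = 0
      · rw [hb, map_zero, mul_zero]
        exact zero_lt_one
      · rw [v.val_eq_one_of_algebraic (halg i) hb, mul_one]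
        exact hlt
    rw [(v.res_eq_zero_iff h3.le).2 h3, map_zero]
  · by_contra hcon
    push Not at hcon
    obtain ⟨h1, h2⟩ := hF (MvPolynomial.aeval y G)
    have h3 : v.val (B0 ^ m * MvPolynomial.aeval β G) = 1 := by
      rw [map_mul, map_pow, heq, one_pow, one_mul]
      exact v.val_eq_one_of_algebraic (fib_alg β halg G) hG2
    have h4 : MvPolynomial.aeval q (MvPolynomial.aeval y G) ≠ 0 := by
      rw [h2, hG1]
      intro h5
      have h6 : v.res (B0 ^ m * MvPolynomial.aeval β G) = 0 := (map_eq_zero φ).1 h5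
      rw [v.res_eq_zero_iff h3.le, h3] at h6
      exact lt_irrefl _ h6
    apply h4
    have h7 : Ideal.span J ⊔ Ideal.span I ≤
        RingHom.ker (MvPolynomial.aeval q : MvPolynomial σ K →ₐ[K] AlgebraicClosure K) := by
      rw [sup_le_iff, Ideal.span_le, Ideal.span_le]
      exact ⟨fun P hP => (RingHom.mem_ker).2 (hcon P hP), fun P hP => (RingHom.mem_ker).2 (hqI P hP)⟩
    exact (RingHom.mem_ker).1 (h7 h.GJ)

variable {K σ : Type} [Field K] [Infinite K] [Finite σ]
variable {I J : Set (MvPolynomial σ K)} {n : ℕ} {y0 : MvPolynomial σ K}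
  {y : Fin n → MvPolynomial σ K} {G : MvPolynomial (Fin n) K}

/-- E3. The fibre of `(y₁ : … : yₙ)` through a point. -/
theorem fib (hI : ∀ P ∈ I, ∃ d, P.IsHomogeneous d) (hp : (Ideal.span I).IsPrime)
    (h : Crd (Ideal.span I) J y0 y G) (x : σ → AlgebraicClosure K) (hx : IsPoint (wOne σ) I x)
    (hG : MvPolynomial.aeval x (MvPolynomial.aeval y G) ≠ 0) :
    ∃ (N : Type) (_ : Field N) (_ : Algebra K N) (z : σ → N) (v v' : Place K N)
      (x' p : σ → AlgebraicClosure K),
      IsFunctionField K N ∧ IsPoint (wOne σ) I z ∧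
      (∀ F : MvPolynomial σ K, MvPolynomial.aeval x F ≠ 0 → MvPolynomial.aeval z F ≠ 0) ∧
      Av I J z ∧ IsSp (wOne σ) I v z x' ∧ cls (wOne σ) I x' = cls (wOne σ) I x ∧
      IsSp (wOne σ) I v' z p ∧ MvPolynomial.aeval p y0 = 1 ∧
      ∀ i, MvPolynomial.aeval p (y i) = 0 := by
  classical
  let Ω : Type := AlgebraicClosure K
  letI : Algebra (MvPolynomial σ K) (MvPolynomial σ Ω) := MvPolynomial.algebraMvPolynomial
  letI : Algebra (MvPolynomial (Option (Fin n)) K) (MvPolynomial (Option (Fin n)) Ω) :=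
    MvPolynomial.algebraMvPolynomial
  have hmap : ∀ F : MvPolynomial σ K, algebraMap (MvPolynomial σ K) (MvPolynomial σ Ω) F =
      F.map (algebraMap K Ω) := fun F => rfl
  have hmap' : ∀ F : MvPolynomial (Option (Fin n)) K,
      algebraMap (MvPolynomial (Option (Fin n)) K) (MvPolynomial (Option (Fin n)) Ω) F =
      F.map (algebraMap K Ω) := fun F => rfl
  haveI : Algebra.IsIntegral (MvPolynomial σ K) (MvPolynomial σ Ω) := inferInstance
  haveI : Algebra.IsIntegral (MvPolynomial (Option (Fin n)) K)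
    (MvPolynomial (Option (Fin n)) Ω) := inferInstance
  obtain ⟨𝔓, -, h𝔓, h𝔓c⟩ := Ideal.exists_ideal_over_prime_of_isIntegral (Ideal.span I)
    (⊥ : Ideal (MvPolynomial σ Ω)) (by
      intro F hF
      rw [Ideal.mem_comap, Ideal.mem_bot, hmap] at hF
      have h1 : F = 0 := MvPolynomial.map_injective _ (algebraMap K Ω).injective
        (by rw [hF, map_zero])
      rw [h1]
      exact zero_mem _)
  have h𝔓m : ∀ F : MvPolynomial σ K, F.map (algebraMap K Ω) ∈ 𝔓 ↔ F ∈ Ideal.span I := fun F => by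
    rw [← h𝔓c, Ideal.mem_comap, hmap]
  obtain ⟨hx0, hxI⟩ := (isPoint_wOne I x).1 hx
  obtain ⟨τ, hτ⟩ := ThF.open_lift 𝔓 x (fun F hF => fib_span x hxI F ((h𝔓m F).1 hF))
  set x' : σ → Ω := fun j => τ (x j) with hx'
  have hx'F : ∀ F : MvPolynomial σ K, MvPolynomial.aeval x' F = τ (MvPolynomial.aeval x F) :=
    fun F => (MvPolynomial.comp_aeval_apply (f := x) τ.toAlgHom F).symm
  have hamap : ∀ (w : σ → Ω) (F : MvPolynomial σ K),
      MvPolynomial.aeval w (F.map (algebraMap K Ω)) = MvPolynomial.aeval w F :=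
    fun w F => MvPolynomial.aeval_map_algebraMap _ _ _
  let yy : Option (Fin n) → MvPolynomial σ K := fun o => o.elim y0 y
  let g : MvPolynomial (Option (Fin n)) Ω →ₐ[Ω] MvPolynomial σ Ω :=
    MvPolynomial.aeval (fun o => (yy o).map (algebraMap K Ω))
  have hg : ∀ p : MvPolynomial (Option (Fin n)) K, g (p.map (algebraMap K Ω)) =
      (MvPolynomial.aeval yy p).map (algebraMap K Ω) := by
    intro p
    induction p using MvPolynomial.induction_on with
    | C a =>
      have h1 : g (MvPolynomial.C (algebraMap K Ω a)) = MvPolynomial.C (algebraMap K Ω a) := by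
        rw [← MvPolynomial.algebraMap_eq, AlgHom.commutes, MvPolynomial.algebraMap_eq]
      have h2 : MvPolynomial.aeval yy (MvPolynomial.C a) = MvPolynomial.C a := by
        rw [MvPolynomial.aeval_C, MvPolynomial.algebraMap_eq]
      rw [MvPolynomial.map_C, h1, h2, MvPolynomial.map_C]
    | add p q hp hq => rw [map_add, map_add, map_add, map_add, hp, hq]
    | mul_X p o hp =>
      have h1 : g (MvPolynomial.X o) = (yy o).map (algebraMap K Ω) := MvPolynomial.aeval_X _ _
      have h2 : MvPolynomial.aeval (R := K) yy (MvPolynomial.X o) = yy o :=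
        MvPolynomial.aeval_X _ _
      rw [map_mul, map_mul, map_mul, map_mul, hp, MvPolynomial.map_X, h1, h2]
  have hinj : ∀ p, g p ∈ 𝔓 → p = 0 := by
    haveI := h𝔓
    have h1 : (𝔓.comap g).comap (algebraMap (MvPolynomial (Option (Fin n)) K)
        (MvPolynomial (Option (Fin n)) Ω)) = ⊥ := by
      rw [eq_bot_iff]
      intro q hq
      rw [Ideal.mem_comap, Ideal.mem_comap, hmap', hg, h𝔓m] at hq
      rw [Ideal.mem_bot]
      have h2 := (algebraicIndependent_iff.1 h.indep) q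
      apply h2
      have h3 : MvPolynomial.aeval (fun o : Option (Fin n) =>
          (Ideal.Quotient.mk (Ideal.span I) (o.elim y0 y) : MvPolynomial σ K ⧸ Ideal.span I)) q =
          Ideal.Quotient.mkₐ K (Ideal.span I) (MvPolynomial.aeval yy q) :=
        (MvPolynomial.comp_aeval_apply (f := yy) (Ideal.Quotient.mkₐ K (Ideal.span I)) q).symm
      rw [h3]
      exact Ideal.Quotient.eq_zero_iff_mem.2 hq
    have h2 := Ideal.eq_bot_of_comap_eq_bot h1
    intro p hp
    have h3 : p ∈ 𝔓.comap g := hp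
    rw [h2] at h3
    exact h3
  have hint : ∀ j, ∃ q : Polynomial (MvPolynomial (Option (Fin n)) Ω), q.Monic ∧
      q.eval₂ g.toRingHom (MvPolynomial.X j) ∈ 𝔓 := by
    intro j
    obtain ⟨q, hq, hqI⟩ := h.int (MvPolynomial.X j)
    refine ⟨q.map (MvPolynomial.map (algebraMap K Ω)), hq.map _, ?_⟩
    have h1 := (h𝔓m _).2 hqI
    rw [Polynomial.hom_eval₂, MvPolynomial.map_X] at h1
    rw [Polynomial.eval₂_map]
    have h2 : g.toRingHom.comp (MvPolynomial.map (algebraMap K Ω)) =
        (MvPolynomial.map (algebraMap K Ω)).comp (MvPolynomial.aeval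
          (fun o : Option (Fin n) => o.elim y0 y) :
            MvPolynomial (Option (Fin n)) K →ₐ[K] MvPolynomial σ K).toRingHom :=
      RingHom.ext fun p => hg p
    rw [h2]
    exact h1
  let a0 : Ω := MvPolynomial.aeval x' y0
  let a : Fin n → Ω := fun i => MvPolynomial.aeval x' (y i)
  obtain ⟨m, hm, hGm⟩ := h.hG
  obtain ⟨i0, hi0⟩ : ∃ i, a i ≠ 0 := by
    by_contra hcon
    push Not at hcon
    apply hG
    have h1 : MvPolynomial.aeval x' (MvPolynomial.aeval y G) = 0 := by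
      have h2 : MvPolynomial.aeval x' (MvPolynomial.aeval y G) = MvPolynomial.aeval a G :=
        MvPolynomial.comp_aeval_apply (f := y) (MvPolynomial.aeval x') G
      rw [h2]
      exact fib_zero hGm hm a (funext hcon)
    rw [hx'F] at h1
    exact (map_eq_zero τ).1 h1
  let ℓ : MvPolynomial (Option (Fin n)) Ω →ₐ[Ω] Polynomial Ω :=
    MvPolynomial.aeval (fun o => o.elim (1 + Polynomial.C (a0 - 1) * Polynomial.X)
      (fun i => Polynomial.C (a i) * Polynomial.X))
  have hℓn : ℓ (MvPolynomial.X none) = 1 + Polynomial.C (a0 - 1) * Polynomial.X :=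
    MvPolynomial.aeval_X _ _
  have hℓs : ∀ i, ℓ (MvPolynomial.X (some i)) = Polynomial.C (a i) * Polynomial.X := fun i =>
    MvPolynomial.aeval_X _ _
  have hgn : g (MvPolynomial.X none) = y0.map (algebraMap K Ω) := MvPolynomial.aeval_X _ _
  have hgs : ∀ i, g (MvPolynomial.X (some i)) = (y i).map (algebraMap K Ω) := fun i =>
    MvPolynomial.aeval_X _ _
  have hℓ : Function.Surjective ℓ := by
    intro f
    refine ⟨Polynomial.aeval (MvPolynomial.C (a i0)⁻¹ * MvPolynomial.X (some i0)) f, ?_⟩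
    rw [← Polynomial.aeval_algHom_apply, map_mul, hℓs, ← MvPolynomial.algebraMap_eq,
      AlgHom.commutes]
    have h1 : algebraMap Ω (Polynomial Ω) (a i0)⁻¹ * (Polynomial.C (a i0) * Polynomial.X) =
        Polynomial.X := by
      rw [Polynomial.algebraMap_eq, ← mul_assoc, ← Polynomial.C_mul, inv_mul_cancel₀ hi0,
        Polynomial.C_1, one_mul]
    rw [h1, Polynomial.aeval_X_left_apply]
  have hxℓ : ∀ p, MvPolynomial.aeval x' (g p) = (ℓ p).eval 1 := by
    have h1 : (MvPolynomial.aeval x').comp g = (Polynomial.aeval (1 : Ω)).comp ℓ := by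
      apply MvPolynomial.algHom_ext
      intro o
      rcases o with _ | i
      · rw [AlgHom.comp_apply, AlgHom.comp_apply, hgn, hℓn, hamap]
        change a0 = _
        rw [Polynomial.coe_aeval_eq_eval, Polynomial.eval_add, Polynomial.eval_one,
          Polynomial.eval_mul, Polynomial.eval_C, Polynomial.eval_X]
        ring
      · rw [AlgHom.comp_apply, AlgHom.comp_apply, hgs, hℓs, hamap]
        change a i = _
        rw [Polynomial.coe_aeval_eq_eval, Polynomial.eval_mul, Polynomial.eval_C,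
          Polynomial.eval_X, mul_one]
    intro p
    have h2 := DFunLike.congr_fun h1 p
    rw [AlgHom.comp_apply, AlgHom.comp_apply, Polynomial.coe_aeval_eq_eval] at h2
    exact h2
  obtain ⟨𝔔, h𝔔, h𝔓𝔔, hx𝔔, hg𝔔, htr, p, hp𝔔, hpℓ⟩ :=
    fib_line 𝔓 h𝔓 g hinj hint ℓ hℓ x' hτ hxℓ
  obtain ⟨N, iN, iA, z, hN, hz, ⟨j0, hj0⟩, hpl⟩ :=
    Pool.Agent.Helper30.BBGeo.exists_const_curve 𝔔 h𝔔 htr
  obtain ⟨v, ρ, hv⟩ := hpl x' hx𝔔
  obtain ⟨v', ρ', hv'⟩ := hpl p hp𝔔
  have hzI : ∀ P ∈ I, MvPolynomial.aeval z P = 0 := fun P hP => by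
    rw [hz]
    exact h𝔓𝔔 ((h𝔓m P).2 (Ideal.subset_span hP))
  have hz0 : z ≠ 0 := by
    intro h0
    apply hj0
    rw [h0, Pi.zero_apply]
    exact isAlgebraic_zero
  have hFz : ∀ F : MvPolynomial σ K, MvPolynomial.aeval x F ≠ 0 → MvPolynomial.aeval z F ≠ 0 := by
    intro F hF h0
    apply hF
    have h1 := hx𝔔 _ ((hz F).1 h0)
    rw [hamap, hx'F] at h1
    exact (map_eq_zero τ).1 h1
  have hzi0 : MvPolynomial.aeval z (y i0) ≠ 0 := by
    apply hFz
    intro h0
    apply hi0
    change MvPolynomial.aeval x' (y i0) = 0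
    rw [hx'F, h0, map_zero]
  have hpy0 : MvPolynomial.aeval p y0 = 1 := by
    have h1 := hpℓ (MvPolynomial.X none)
    rw [hgn, hℓn, hamap] at h1
    rw [h1]
    simp
  have hpyi : ∀ i, MvPolynomial.aeval p (y i) = 0 := by
    intro i
    have h1 := hpℓ (MvPolynomial.X (some i))
    rw [hgs, hℓs, hamap] at h1
    rw [h1]
    simp
  have halg : ∀ i, IsAlgebraic K (MvPolynomial.aeval z (y i) / MvPolynomial.aeval z (y i0)) := by
    intro i
    have hθ : IsIntegral K (a i / a i0) := Algebra.IsIntegral.isIntegral _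
    set m' : Polynomial K := minpoly K (a i / a i0) with hm'
    let M : MvPolynomial (Option (Fin n)) K := ∑ k ∈ Finset.range (m'.natDegree + 1),
      MvPolynomial.C (m'.coeff k) * MvPolynomial.X (some i) ^ k *
        MvPolynomial.X (some i0) ^ (m'.natDegree - k)
    have hM : ∀ (B : Type) [CommRing B] [Algebra K B] (w : Option (Fin n) → B),
        MvPolynomial.aeval w M = ∑ k ∈ Finset.range (m'.natDegree + 1),
          algebraMap K B (m'.coeff k) * w (some i) ^ k * w (some i0) ^ (m'.natDegree - k) := by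
      intro B _ _ w
      simp only [M, map_sum, map_mul, map_pow, MvPolynomial.aeval_C, MvPolynomial.aeval_X]
    have h1 : ℓ (M.map (algebraMap K Ω)) = 0 := by
      have h2 : ℓ (M.map (algebraMap K Ω)) = MvPolynomial.aeval (R := K) (fun o : Option (Fin n) =>
          (o.elim (1 + Polynomial.C (a0 - 1) * Polynomial.X)
            (fun i => Polynomial.C (a i) * Polynomial.X) : Polynomial Ω)) M :=
        MvPolynomial.aeval_map_algebraMap _ _ _
      rw [h2, hM]
      have h3 := fib_homog m' (Polynomial.C (a i) * Polynomial.X : Polynomial Ω)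
        (Polynomial.C (a i0) * Polynomial.X) (algebraMap Ω (Polynomial Ω) (a i / a i0)) (by
          rw [Polynomial.algebraMap_eq, ← mul_assoc, ← Polynomial.C_mul, div_mul_cancel₀ _ hi0])
      refine h3.trans ?_
      rw [Polynomial.aeval_algebraMap_apply, hm', minpoly.aeval, map_zero, mul_zero]
    have h4 := (hg𝔔 _).2 h1
    rw [hg, ← hz] at h4
    have h5 : MvPolynomial.aeval z (MvPolynomial.aeval yy M) =
        MvPolynomial.aeval (fun o => MvPolynomial.aeval z (yy o)) M :=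
      MvPolynomial.comp_aeval_apply (f := yy) (MvPolynomial.aeval z) M
    rw [h5, hM] at h4
    have h6 := fib_homog m' (MvPolynomial.aeval z (y i)) (MvPolynomial.aeval z (y i0))
      (MvPolynomial.aeval z (y i) / MvPolynomial.aeval z (y i0)) (div_mul_cancel₀ _ hzi0)
    have h7 := h6.symm.trans h4
    refine ⟨m', minpoly.ne_zero hθ, ?_⟩
    exact (mul_eq_zero.1 h7).resolve_left (pow_ne_zero _ hzi0)
  refine ⟨N, iN, iA, z, v, v', x', p, hN, (isPoint_wOne I z).2 ⟨hz0, hzI⟩, hFz,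
    fib_av h z (hFz _ hG) i0 hzi0 halg, ?_, cls_conj τ x hx, ?_, hpy0, hpyi⟩
  · refine ⟨isPoint_map τ.toAlgHom x hx, ρ, fun _ => 1, fun _ => one_ne_zero, fun j => ?_,
      fun j => ?_⟩
    · rw [scale_one]
      exact (hv j).1
    · rw [scale_one]
      exact (hv j).2.symm
  · refine ⟨(isPoint_wOne I p).2 ⟨?_, fun P hP => ?_⟩, ρ', fun _ => 1, fun _ => one_ne_zero,
      fun j => ?_, fun j => ?_⟩
    · intro h0
      rw [fib_zero h.h0 one_pos p h0] at hpy0
      exact zero_ne_one hpy0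
    · rw [← hamap]
      exact hp𝔔 _ (h𝔓𝔔 ((h𝔓m P).2 (Ideal.subset_span hP)))
    · rw [scale_one]
      exact (hv' j).1
    · rw [scale_one]
      exact (hv' j).2.symm

end Pool.Agent.TT.E
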