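import Mathlib
import Pool.Agent.TT.E.Defs
import Pool.Agent.ThF.Conn
import Pool.Agent.ThF.Open

set_option autoImplicit false
set_option linter.unusedSectionVars false

/-! Project TT, block E, module E4.

PLAN for `fin_fib`: by `h.int` for `f = X j` there is a monic polynomial over
`MvPolynomial (Option (Fin n)) K`; its coefficients evaluated at `(1, 0, …, 0)` give a monic
polynomial over `K` which has `p j` as a root for all `p` in question. So there are finitely many
`p`.

PLAN for `const_of_finite`: (a) Let `z` be a point over a function field `N` with `g(z) ≠ 0`. For all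
but finitely many places `v` every specialisation `y` of `z` at `v` has `g(y) ≠ 0` (see the proof of
`ThF.cls_mem_of_open`: `open_spec_val`, `exists_isSp_wOne`, `hE.product_formula`), so
`φ (cls y) ∈ Φ`; two specialisations at the same place have the same class (`cls_isSp_eq`), so the
values of `φ` on all specialisations are in a finite set, in particular bounded below, and `CstOn`
holds by `h2`.
(b) Let `Ω = AlgebraicClosure K` and `𝔓` a prime of `MvPolynomial σ Ω` lying over `Ideal.span I`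
(integral extension, `Ideal.exists_ideal_over_prime_of_isIntegral`, as in `ThF.open_lift`). Apply
`ThF.conn_component` (over `K`) with `ι = Option σ`, `𝒬 = {rename some P | P ∈ I} ∪ {X none * rename
some g - 1}`, `q` = kernel of `MvPolynomial (Option σ) Ω → S'[1/g]` (`Localization.Away` of the class
of `g` in `S' = MvPolynomial σ Ω ⧸ 𝔓`, a domain as `g ∉ 𝔓`), `θ c = φ (cls (fun j => c (some j)))`.
The hypothesis of `conn_component` is (a): the specialisations `c`, `c'` have `X none * g = 1`, so they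
are nonzero and `IsSp` holds with scaling factor one. Conclusion: `φ (cls x)` is the same for all
zeros `x` of `𝔓` with `g(x) ≠ 0`; by `ThF.open_lift` and `cls_conj` it is the same for all points
`x` of `X` with `g(x) ≠ 0` (if there is none take `c = 0`).
(c) `ThF.cls_mem_of_open` with `M` = fraction field of `MvPolynomial σ K ⧸ Ideal.span I`, `ξ j` = class
of `X j`, `V = ker (φ - c • degQ (wOne σ) I)` (`degQ_cls`). -/

namespace Pool.Agent.TT.E

open Pool.Agent.Helper16 Pool.Agent.Helper16.BB Pool.Agent.Helper16.GT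

variable {K σ : Type} [Field K] [Infinite K] [Finite σ]
variable {I J : Set (MvPolynomial σ K)} {n : ℕ} {y0 : MvPolynomial σ K}
  {y : Fin n → MvPolynomial σ K} {G : MvPolynomial (Fin n) K}

private theorem fin_span_zero {N : Type} [Field N] [Algebra K N] {x : σ → N}
    (hx : ∀ P ∈ I, MvPolynomial.aeval x P = 0) {F : MvPolynomial σ K} (hF : F ∈ Ideal.span I) :
    MvPolynomial.aeval x F = 0 := by
  have h1 : Ideal.span I ≤ RingHom.ker (MvPolynomial.aeval x : MvPolynomial σ K →ₐ[K] N) := by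
    rw [Ideal.span_le]
    intro P hP
    exact hx P hP
  exact h1 hF

/-- E4a. The fibre of the finite morphism over `(1 : 0 : … : 0)` is finite. -/
theorem fin_fib (h : Crd (Ideal.span I) J y0 y G) :
    {q : Quo (wOne σ) I | ∃ p : σ → AlgebraicClosure K, IsPoint (wOne σ) I p ∧
      MvPolynomial.aeval p y0 = 1 ∧ (∀ i, MvPolynomial.aeval p (y i) = 0) ∧
      q = cls (wOne σ) I p}.Finite := by
  classical
  choose P hPm hP using fun j : σ => h.int (MvPolynomial.X j)
  let e : Option (Fin n) → AlgebraicClosure K := fun o => o.elim 1 (fun _ => 0)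
  let Q : σ → Polynomial (AlgebraicClosure K) := fun j =>
    (P j).map (MvPolynomial.aeval e : MvPolynomial (Option (Fin n)) K →ₐ[K]
      AlgebraicClosure K).toRingHom
  have hQ0 : ∀ j, Q j ≠ 0 := fun j => ((hPm j).map _).ne_zero
  have hfin : {f : σ → AlgebraicClosure K | ∀ j, f j ∈ {a : AlgebraicClosure K |
      (Q j).IsRoot a}}.Finite :=
    Set.Finite.pi' fun j => Polynomial.finite_setOfPred_isRoot (hQ0 j)
  refine (hfin.image (cls (wOne σ) I)).subset ?_
  rintro q ⟨p, hp, h0, hy, rfl⟩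
  refine ⟨p, fun j => ?_, rfl⟩
  have h1 : MvPolynomial.aeval p ((P j).eval₂ (MvPolynomial.aeval
      (fun o : Option (Fin n) => o.elim y0 y) : MvPolynomial (Option (Fin n)) K →ₐ[K]
        MvPolynomial σ K).toRingHom (MvPolynomial.X j)) = 0 :=
    fin_span_zero ((isPoint_wOne I p).1 hp).2 (hP j)
  have h2 : (MvPolynomial.aeval p : MvPolynomial σ K →ₐ[K] AlgebraicClosure K).toRingHom.comp
      (MvPolynomial.aeval (fun o : Option (Fin n) => o.elim y0 y) :
        MvPolynomial (Option (Fin n)) K →ₐ[K] MvPolynomial σ K).toRingHom =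
      (MvPolynomial.aeval e : MvPolynomial (Option (Fin n)) K →ₐ[K]
        AlgebraicClosure K).toRingHom := by
    have h3 : (MvPolynomial.aeval p : MvPolynomial σ K →ₐ[K] AlgebraicClosure K).comp
        (MvPolynomial.aeval (fun o : Option (Fin n) => o.elim y0 y) :
          MvPolynomial (Option (Fin n)) K →ₐ[K] MvPolynomial σ K) =
        (MvPolynomial.aeval e : MvPolynomial (Option (Fin n)) K →ₐ[K] AlgebraicClosure K) := by
      apply MvPolynomial.algHom_ext
      intro o
      rw [AlgHom.comp_apply, MvPolynomial.aeval_X, MvPolynomial.aeval_X]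
      rcases o with _ | i
      · exact h0
      · exact hy i
    exact congrArg AlgHom.toRingHom h3
  change (Q j).eval (p j) = 0
  rw [Polynomial.eval_map, ← h2]
  have h4 := Polynomial.hom_eval₂ (P j) (MvPolynomial.aeval
      (fun o : Option (Fin n) => o.elim y0 y) : MvPolynomial (Option (Fin n)) K →ₐ[K]
        MvPolynomial σ K).toRingHom
      (MvPolynomial.aeval p : MvPolynomial σ K →ₐ[K] AlgebraicClosure K).toRingHom
      (MvPolynomial.X j)
  have h5 : (MvPolynomial.aeval p : MvPolynomial σ K →ₐ[K] AlgebraicClosure K).toRingHom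
      (MvPolynomial.X j) = p j := MvPolynomial.aeval_X p j
  rw [h5] at h4
  rw [← h4]
  exact h1

/-- (a) The values on the specialisations of a point over a function field are bounded below. -/
private theorem fin_bdd (hI : ∀ P ∈ I, ∃ d, P.IsHomogeneous d)
    (φ : Quo (wOne σ) I →ₗ[ℚ] ℚ) (g : MvPolynomial σ K) {m : ℕ} (hg : g.IsHomogeneous m)
    (Φ : Set ℚ) (hΦ : Φ.Finite)
    (h1 : ∀ x : σ → AlgebraicClosure K, IsPoint (wOne σ) I x → MvPolynomial.aeval x g ≠ 0 →
      φ (cls (wOne σ) I x) ∈ Φ) {N : Type} [Field N] [Algebra K N] (z : σ → N)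
    (hN : IsFunctionField K N) (hz : IsPoint (wOne σ) I z) (hzg : MvPolynomial.aeval z g ≠ 0) :
    ∃ c : ℚ, ∀ (v : Place K N) (y : σ → AlgebraicClosure K),
        IsSp (wOne σ) I v z y → c ≤ φ (cls (wOne σ) I y) := by
  classical
  have ha0 : ∀ i : σ, z i ≠ 0 → MvPolynomial.aeval (fun j => z j / z i) g ≠ 0 := by
    intro i hi
    have h1 : (fun j => z j / z i) = fun j => (z i)⁻¹ * z j := by
      funext j
      rw [div_eq_inv_mul]
    rw [h1, Pool.Agent.ThF.open_aeval_smul hg]
    exact mul_ne_zero (pow_ne_zero _ (inv_ne_zero hi)) hzg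
  choose S hS hS' using fun i : σ =>
    hN.product_formula (MvPolynomial.aeval (fun j => z j / z i) g)
  have := Fintype.ofFinite σ
  let Bad : Finset (Place K N) := Finset.univ.biUnion S
  have hex : ∀ v : Place K N, ∃ y, IsSp (wOne σ) I v z y ∧
      (v ∉ Bad → φ (cls (wOne σ) I y) ∈ Φ) := by
    intro v
    have := v.finite_resField hN
    obtain ⟨i, hi, h2, h3⟩ := Pool.Agent.ThF.exists_isSp_wOne hI v z hz IsAlgClosed.lift
    refine ⟨_, h3, fun hv => h1 _ h3.1 ?_⟩
    apply Pool.Agent.ThF.open_spec_val v z i h2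
    by_contra hne
    apply hv
    rw [Finset.mem_biUnion]
    refine ⟨i, Finset.mem_univ i, ?_⟩
    rw [hS]
    intro h0
    exact hne ((v.ord_eq_zero_iff (ha0 i hi)).1 h0)
  choose y hy hyΦ using hex
  have hfin : (Φ ∪ (fun v => φ (cls (wOne σ) I (y v))) '' (Bad : Set (Place K N))).Finite :=
    hΦ.union (Bad.finite_toSet.image _)
  obtain ⟨c, hc⟩ := hfin.bddBelow
  refine ⟨c, fun v y' hy' => ?_⟩
  rw [cls_isSp_eq hN v z y' (y v) hy' (hy v)]
  apply hc
  by_cases hv : v ∈ Bad
  · exact Or.inr ⟨v, hv, rfl⟩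
  · exact Or.inl (hyΦ v hv)

/-- The zeros of a prime ideal over the algebraic closure outside a hypersurface. -/
private theorem fin_localize (𝔓 : Ideal (MvPolynomial σ (AlgebraicClosure K))) (h𝔓 : 𝔓.IsPrime)
    (g : MvPolynomial σ K) (hg : g.map (algebraMap K (AlgebraicClosure K)) ∉ 𝔓) :
    ∃ q : Ideal (MvPolynomial (Option σ) (AlgebraicClosure K)), q.IsPrime ∧
      (∀ Q ∈ 𝔓, MvPolynomial.rename some Q ∈ q) ∧
      (MvPolynomial.X none * MvPolynomial.rename some
        (g.map (algebraMap K (AlgebraicClosure K))) - 1 ∈ q) ∧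
      ∀ x : σ → AlgebraicClosure K, (∀ Q ∈ 𝔓, MvPolynomial.aeval x Q = 0) →
        MvPolynomial.aeval x g ≠ 0 → ∀ Q ∈ q,
          MvPolynomial.aeval (fun o : Option σ => o.elim (MvPolynomial.aeval x g)⁻¹ x) Q = 0 := by
  classical
  let R : Type := MvPolynomial σ (AlgebraicClosure K) ⧸ 𝔓
  have hR : IsDomain R := Ideal.Quotient.isDomain 𝔓
  let π : MvPolynomial σ (AlgebraicClosure K) →ₐ[AlgebraicClosure K] R :=
    Ideal.Quotient.mkₐ (AlgebraicClosure K) 𝔓
  let f : R := π (g.map (algebraMap K (AlgebraicClosure K)))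
  have hf : f ≠ 0 := fun h0 => hg (Ideal.Quotient.eq_zero_iff_mem.1 h0)
  let Rf : Type := Localization.Away f
  have hRf : IsDomain Rf := IsLocalization.isDomain_localization
    (powers_le_nonZeroDivisors_of_noZeroDivisors hf)
  let ι : R →ₐ[AlgebraicClosure K] Rf := IsScalarTower.toAlgHom (AlgebraicClosure K) R Rf
  let u : Rf := IsLocalization.Away.invSelf f
  have hu : ι f * u = 1 := IsLocalization.Away.mul_invSelf f
  let Ψ : MvPolynomial (Option σ) (AlgebraicClosure K) →ₐ[AlgebraicClosure K] Rf :=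
    MvPolynomial.aeval (fun o : Option σ => o.elim u (fun j => ι (π (MvPolynomial.X j))))
  have hΨr : ∀ Q, Ψ (MvPolynomial.rename some Q) = ι (π Q) := by
    intro Q
    have h1 : Ψ.comp (MvPolynomial.rename some) = ι.comp π := by
      apply MvPolynomial.algHom_ext
      intro j
      rw [AlgHom.comp_apply, AlgHom.comp_apply, MvPolynomial.rename_X]
      exact MvPolynomial.aeval_X _ _
    exact DFunLike.congr_fun h1 Q
  have hΨn : Ψ (MvPolynomial.X none) = u := MvPolynomial.aeval_X _ _
  refine ⟨RingHom.ker Ψ, RingHom.ker_isPrime Ψ, ?_, ?_, ?_⟩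
  · intro Q hQ
    rw [RingHom.mem_ker, hΨr]
    have h1 : π Q = 0 := Ideal.Quotient.eq_zero_iff_mem.2 hQ
    rw [h1, map_zero]
  · rw [RingHom.mem_ker, map_sub, map_mul, hΨr, hΨn, map_one, mul_comm]
    exact sub_eq_zero.2 hu
  · intro x hx hxg Q hQ
    let ε : R →ₐ[AlgebraicClosure K] AlgebraicClosure K :=
      Ideal.Quotient.liftₐ 𝔓 (MvPolynomial.aeval x) hx
    have hε : ∀ P, ε (π P) = MvPolynomial.aeval x P := fun P => rfl
    have hεf : ε f = MvPolynomial.aeval x g := by
      change ε (π _) = _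
      rw [hε, MvPolynomial.aeval_map_algebraMap]
    have hunit : IsUnit (ε.toRingHom f) := by
      change IsUnit (ε f)
      rw [hεf]
      exact IsUnit.mk0 _ hxg
    let ε' : Rf →+* AlgebraicClosure K := IsLocalization.Away.lift f hunit
    have hε' : ∀ a : R, ε' (ι a) = ε a := fun a => IsLocalization.Away.lift_eq f hunit a
    have hε'u : ε' u = (MvPolynomial.aeval x g)⁻¹ := by
      have h1 := congrArg ε' hu
      rw [map_mul, hε', hεf, map_one] at h1
      exact eq_inv_of_mul_eq_one_right h1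
    have hcomp : ε'.comp Ψ.toRingHom =
        (MvPolynomial.aeval (fun o : Option σ => o.elim (MvPolynomial.aeval x g)⁻¹ x) :
          MvPolynomial (Option σ) (AlgebraicClosure K) →ₐ[AlgebraicClosure K]
            AlgebraicClosure K).toRingHom := by
      apply MvPolynomial.ringHom_ext
      · intro a
        change ε' (Ψ (MvPolynomial.C a)) = MvPolynomial.aeval _ (MvPolynomial.C a)
        rw [MvPolynomial.algHom_C, MvPolynomial.algHom_C]
        have h1 : algebraMap (AlgebraicClosure K) Rf a =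
            ι (algebraMap (AlgebraicClosure K) R a) := (ι.commutes a).symm
        rw [h1, hε']
        exact ε.commutes a
      · intro o
        change ε' (Ψ (MvPolynomial.X o)) = MvPolynomial.aeval _ (MvPolynomial.X o)
        refine Eq.trans ?_ (MvPolynomial.aeval_X _ _).symm
        rcases o with _ | j
        · rw [hΨn]
          exact hε'u
        · have h1 : Ψ (MvPolynomial.X (some j)) = ι (π (MvPolynomial.X j)) :=
            MvPolynomial.aeval_X _ _
          rw [h1, hε', hε, MvPolynomial.aeval_X]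
          rfl
    have h1 := DFunLike.congr_fun hcomp Q
    change ε' (Ψ Q) = MvPolynomial.aeval _ Q at h1
    rw [← h1]
    have h2 : Ψ Q = 0 := hQ
    rw [h2, map_zero]

/-- (b) The functional is constant on the open subset. -/
private theorem fin_open (hp : (Ideal.span I).IsPrime) (φ : Quo (wOne σ) I →ₗ[ℚ] ℚ)
    (g : MvPolynomial σ K) (hgI : g ∉ Ideal.span I)
    (hg0 : ∀ (N : Type) [Field N] [Algebra K N] (z : σ → N), MvPolynomial.aeval z g ≠ 0 → z ≠ 0)
    (h2 : ∀ (N : Type) [Field N] [Algebra K N] (z : σ → N), IsFunctionField K N →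
      IsPoint (wOne σ) I z → MvPolynomial.aeval z g ≠ 0 → CstOn I φ z)
    (x x' : σ → AlgebraicClosure K) (hx : IsPoint (wOne σ) I x) (hx' : IsPoint (wOne σ) I x')
    (hxg : MvPolynomial.aeval x g ≠ 0) (hxg' : MvPolynomial.aeval x' g ≠ 0) :
    φ (cls (wOne σ) I x) = φ (cls (wOne σ) I x') := by
  classical
  let _ : Algebra (MvPolynomial σ K) (MvPolynomial σ (AlgebraicClosure K)) :=
    MvPolynomial.algebraMvPolynomial
  have hmap : ∀ F : MvPolynomial σ K, algebraMap (MvPolynomial σ K)
      (MvPolynomial σ (AlgebraicClosure K)) F = F.map (algebraMap K (AlgebraicClosure K)) :=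
    fun F => rfl
  have hint : Algebra.IsIntegral (MvPolynomial σ K) (MvPolynomial σ (AlgebraicClosure K)) :=
    inferInstance
  have hinj : Function.Injective (algebraMap (MvPolynomial σ K)
      (MvPolynomial σ (AlgebraicClosure K))) :=
    MvPolynomial.map_injective _ (algebraMap K (AlgebraicClosure K)).injective
  obtain ⟨𝔓, -, h𝔓, h𝔓I⟩ := Ideal.exists_ideal_over_prime_of_isIntegral (Ideal.span I)
    (⊥ : Ideal (MvPolynomial σ (AlgebraicClosure K))) (fun F hF => by
      have h3 : algebraMap (MvPolynomial σ K) (MvPolynomial σ (AlgebraicClosure K)) F = 0 := hF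
      have h4 : F = 0 := hinj (by rw [h3, map_zero])
      rw [h4]
      exact zero_mem _)
  have hmem : ∀ F : MvPolynomial σ K, F.map (algebraMap K (AlgebraicClosure K)) ∈ 𝔓 ↔
      F ∈ Ideal.span I := by
    intro F
    rw [← h𝔓I, Ideal.mem_comap, hmap]
  obtain ⟨q, hq, hq1, hq2, hq3⟩ := fin_localize 𝔓 h𝔓 g (fun h3 => hgI ((hmem g).1 h3))
  let 𝒬 : Set (MvPolynomial (Option σ) K) :=
    insert (MvPolynomial.X none * MvPolynomial.rename some g - 1)
      ((MvPolynomial.rename some) '' I)
  have hmr : ∀ F : MvPolynomial σ K, MvPolynomial.map (algebraMap K (AlgebraicClosure K))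
      (MvPolynomial.rename (some : σ → Option σ) F) =
      MvPolynomial.rename some (F.map (algebraMap K (AlgebraicClosure K))) :=
    fun F => MvPolynomial.map_rename _ _ _
  have hq𝒬 : ∀ Q ∈ 𝒬, MvPolynomial.map (algebraMap K (AlgebraicClosure K)) Q ∈ q := by
    intro Q hQ
    rcases hQ with rfl | ⟨P, hP, rfl⟩
    · rw [map_sub, map_mul, MvPolynomial.map_X, hmr, map_one]
      exact hq2
    · rw [hmr]
      exact hq1 _ ((hmem P).2 (Ideal.subset_span hP))
  -- the hypothesis on curves
  have hcurve : ∀ (E : Type) [Field E] [Algebra K E], IsFunctionField K E →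
      ∀ ξ : Option σ → E,
      (∀ Q ∈ 𝒬, MvPolynomial.aeval ξ Q = 0) → ∀ (u u' : Place K E)
      (ρ : u.resField →ₐ[K] AlgebraicClosure K) (ρ' : u'.resField →ₐ[K] AlgebraicClosure K)
      (c c' : Option σ → AlgebraicClosure K),
      (∀ i, u.val (ξ i) ≤ 1 ∧ ρ (u.res (ξ i)) = c i) →
      (∀ i, u'.val (ξ i) ≤ 1 ∧ ρ' (u'.res (ξ i)) = c' i) →
      φ (cls (wOne σ) I (fun j => c (some j))) = φ (cls (wOne σ) I (fun j => c' (some j))) := by
    intro E _ _ hE ξ hξ u u' ρ ρ' c c' hc hc'
    have hzr : ∀ F : MvPolynomial σ K, MvPolynomial.aeval ξ (MvPolynomial.rename some F) =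
        MvPolynomial.aeval (fun j => ξ (some j)) F :=
      fun F => MvPolynomial.aeval_rename _ _ _
    have hzg : ξ none * MvPolynomial.aeval (fun j => ξ (some j)) g = 1 := by
      have h3 := hξ _ (Or.inl rfl)
      rw [map_sub, map_mul, MvPolynomial.aeval_X, hzr, map_one, sub_eq_zero] at h3
      exact h3
    have hzg0 : MvPolynomial.aeval (fun j => ξ (some j)) g ≠ 0 := right_ne_zero_of_mul_eq_one hzg
    have hz : IsPoint (wOne σ) I (fun j => ξ (some j)) := by
      rw [isPoint_wOne]
      refine ⟨hg0 E _ hzg0, fun P hP => ?_⟩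
      rw [← hzr]
      exact hξ _ (Or.inr ⟨P, hP, rfl⟩)
    have hsp : ∀ (u : Place K E) (ρ : u.resField →ₐ[K] AlgebraicClosure K)
        (c : Option σ → AlgebraicClosure K),
        (∀ i, u.val (ξ i) ≤ 1 ∧ ρ (u.res (ξ i)) = c i) →
        IsSp (wOne σ) I u (fun j => ξ (some j)) (fun j => c (some j)) := by
      intro u ρ c hc
      have hval : ∀ Q ∈ 𝒬, MvPolynomial.aeval c Q = 0 := by
        intro Q hQ
        have h3 := (aeval_res_eq u ξ (fun i => (hc i).1) Q).2
        rw [hξ Q hQ, u.res_zero] at h3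
        have h4 : MvPolynomial.aeval (fun i => ρ (u.res (ξ i))) Q =
            ρ (MvPolynomial.aeval (fun i => u.res (ξ i)) Q) :=
          (MvPolynomial.comp_aeval_apply (f := fun i => u.res (ξ i)) ρ Q).symm
        rw [h3, map_zero] at h4
        have h5 : c = fun i => ρ (u.res (ξ i)) := funext fun i => (hc i).2.symm
        rw [h5]
        exact h4
      have hcr : ∀ F : MvPolynomial σ K, MvPolynomial.aeval c (MvPolynomial.rename some F) =
          MvPolynomial.aeval (fun j => c (some j)) F :=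
        fun F => MvPolynomial.aeval_rename _ _ _
      have hcg : c none * MvPolynomial.aeval (fun j => c (some j)) g = 1 := by
        have h3 := hval _ (Or.inl rfl)
        rw [map_sub, map_mul, MvPolynomial.aeval_X, hcr, map_one, sub_eq_zero] at h3
        exact h3
      refine ⟨(isPoint_wOne I _).2 ⟨hg0 _ _ (right_ne_zero_of_mul_eq_one hcg), fun P hP => ?_⟩,
        ρ, fun _ => 1, fun _ => one_ne_zero, fun j => ?_, fun j => ?_⟩
      · rw [← hcr]
        exact hval _ (Or.inr ⟨P, hP, rfl⟩)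
      · rw [scale_one]
        exact (hc (some j)).1
      · rw [scale_one]
        exact (hc (some j)).2.symm
    exact h2 E _ hE hz hzg0 u u' _ _ (hsp u ρ c hc) (hsp u' ρ' c' hc')
  have hfin : ∀ x x' : σ → AlgebraicClosure K, (∀ Q ∈ 𝔓, MvPolynomial.aeval x Q = 0) →
      (∀ Q ∈ 𝔓, MvPolynomial.aeval x' Q = 0) → MvPolynomial.aeval x g ≠ 0 →
      MvPolynomial.aeval x' g ≠ 0 → φ (cls (wOne σ) I x) = φ (cls (wOne σ) I x') := by
    intro x x' hx hx' hxg hxg'
    exact Pool.Agent.ThF.conn_component 𝒬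
      (fun c : Option σ → AlgebraicClosure K => φ (cls (wOne σ) I (fun j => c (some j))))
      hcurve q hq hq𝒬 (fun o : Option σ => o.elim (MvPolynomial.aeval x g)⁻¹ x)
      (fun o : Option σ => o.elim (MvPolynomial.aeval x' g)⁻¹ x') (hq3 x hx hxg) (hq3 x' hx' hxg')
  have hconj : ∀ x : σ → AlgebraicClosure K, IsPoint (wOne σ) I x →
      MvPolynomial.aeval x g ≠ 0 → ∃ w : σ → AlgebraicClosure K,
        (∀ Q ∈ 𝔓, MvPolynomial.aeval w Q = 0) ∧ MvPolynomial.aeval w g ≠ 0 ∧
        cls (wOne σ) I w = cls (wOne σ) I x := by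
    intro x hx hxg
    obtain ⟨τ, hτ⟩ := Pool.Agent.ThF.open_lift 𝔓 x (fun F hF =>
      fin_span_zero ((isPoint_wOne I x).1 hx).2 ((hmem F).1 hF))
    refine ⟨fun j => τ (x j), hτ, ?_, cls_conj τ x hx⟩
    have h3 : MvPolynomial.aeval (fun j => τ (x j)) g = τ (MvPolynomial.aeval x g) :=
      (MvPolynomial.comp_aeval_apply (f := x) τ.toAlgHom g).symm
    rw [h3]
    exact (map_ne_zero τ).2 hxg
  obtain ⟨w, hw1, hw2, hw3⟩ := hconj x hx hxg
  obtain ⟨w', hw1', hw2', hw3'⟩ := hconj x' hx' hxg'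
  rw [← hw3, ← hw3']
  exact hfin w w' hw1 hw1' hw2 hw2'

/-- E4b. A functional with finitely many values on a nonempty open subset of `X` is constant. -/
theorem const_of_finite (hI : ∀ P ∈ I, ∃ d, P.IsHomogeneous d) (hp : (Ideal.span I).IsPrime)
    (hne : ∃ j, MvPolynomial.X j ∉ Ideal.span I) (φ : Quo (wOne σ) I →ₗ[ℚ] ℚ)
    (g : MvPolynomial σ K) (hg : ∃ m, g.IsHomogeneous m) (hgI : g ∉ Ideal.span I)
    (Φ : Set ℚ) (hΦ : Φ.Finite)
    (h1 : ∀ x : σ → AlgebraicClosure K, IsPoint (wOne σ) I x → MvPolynomial.aeval x g ≠ 0 →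
      φ (cls (wOne σ) I x) ∈ Φ)
    (h2 : ∀ (N : Type) [Field N] [Algebra K N] (z : σ → N), IsFunctionField K N →
      IsPoint (wOne σ) I z → (∃ c : ℚ, ∀ (v : Place K N) (y : σ → AlgebraicClosure K),
        IsSp (wOne σ) I v z y → c ≤ φ (cls (wOne σ) I y)) → CstOn I φ z) :
    ∃ c : ℚ, ∀ x : σ → AlgebraicClosure K, IsPoint (wOne σ) I x → φ (cls (wOne σ) I x) = c := by
  classical
  obtain ⟨j0, hj0⟩ := hne
  obtain ⟨m, hm⟩ := hg
  let g' : MvPolynomial σ K := g * MvPolynomial.X j0
  have hg' : g'.IsHomogeneous (m + 1) := hm.mul (MvPolynomial.isHomogeneous_X K j0)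
  have hg'I : g' ∉ Ideal.span I := fun h3 => (hp.mem_or_mem h3).elim hgI hj0
  have hg'x : ∀ (N : Type) [Field N] [Algebra K N] (z : σ → N), MvPolynomial.aeval z g' ≠ 0 →
      MvPolynomial.aeval z g ≠ 0 ∧ z j0 ≠ 0 := by
    intro N _ _ z hz
    have h3 : MvPolynomial.aeval z g' = MvPolynomial.aeval z g * z j0 := by
      change MvPolynomial.aeval z (g * MvPolynomial.X j0) = _
      rw [map_mul, MvPolynomial.aeval_X]
    rw [h3] at hz
    exact ⟨left_ne_zero_of_mul hz, right_ne_zero_of_mul hz⟩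
  have hg'0 : ∀ (N : Type) [Field N] [Algebra K N] (z : σ → N), MvPolynomial.aeval z g' ≠ 0 →
      z ≠ 0 := by
    intro N _ _ z hz h0
    exact (hg'x N z hz).2 (by rw [h0]; rfl)
  have hcst : ∀ (N : Type) [Field N] [Algebra K N] (z : σ → N), IsFunctionField K N →
      IsPoint (wOne σ) I z → MvPolynomial.aeval z g' ≠ 0 → CstOn I φ z := by
    intro N _ _ z hN hz hzg
    exact h2 N z hN hz (fin_bdd hI φ g hm Φ hΦ h1 z hN hz (hg'x N z hzg).1)
  have hopen : ∃ c : ℚ, ∀ x : σ → AlgebraicClosure K, IsPoint (wOne σ) I x →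
      MvPolynomial.aeval x g' ≠ 0 → φ (cls (wOne σ) I x) = c := by
    by_cases hex : ∃ x : σ → AlgebraicClosure K, IsPoint (wOne σ) I x ∧
      MvPolynomial.aeval x g' ≠ 0
    · obtain ⟨x0, hx0, hx0g⟩ := hex
      exact ⟨φ (cls (wOne σ) I x0), fun x hx hxg =>
        fin_open hp φ g' hg'I hg'0 hcst x x0 hx hx0 hxg hx0g⟩
    · exact ⟨0, fun x hx hxg => (hex ⟨x, hx, hxg⟩).elim⟩
  obtain ⟨c, hc⟩ := hopen
  refine ⟨c, fun x hx => ?_⟩
  let A : Type := MvPolynomial σ K ⧸ Ideal.span I
  have hA : IsDomain A := Ideal.Quotient.isDomain _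
  let M : Type := FractionRing A
  let ψ : MvPolynomial σ K →ₐ[K] M :=
    (IsScalarTower.toAlgHom K A M).comp (Ideal.Quotient.mkₐ K (Ideal.span I))
  have hψ : ∀ F, ψ F = 0 ↔ F ∈ Ideal.span I := by
    intro F
    have h3 : ψ F = algebraMap A M (Ideal.Quotient.mk (Ideal.span I) F) := rfl
    rw [h3, map_eq_zero_iff _ (IsFractionRing.injective A M), Ideal.Quotient.eq_zero_iff_mem]
  let ξ : σ → M := fun j => ψ (MvPolynomial.X j)
  have hξ : ∀ F, MvPolynomial.aeval ξ F = ψ F := by
    intro F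
    have h3 : MvPolynomial.aeval ξ = ψ := by
      apply MvPolynomial.algHom_ext
      intro j
      rw [MvPolynomial.aeval_X]
    rw [h3]
  have hξp : IsPoint (wOne σ) I ξ := by
    rw [isPoint_wOne]
    refine ⟨fun h0 => ?_, fun P hP => ?_⟩
    · apply hj0
      rw [← hψ]
      exact congrFun h0 j0
    · rw [hξ, hψ]
      exact Ideal.subset_span hP
  have hmem := Pool.Agent.ThF.cls_mem_of_open hI ξ hξp
    (fun P _ hP x hx => fin_span_zero ((isPoint_wOne I x).1 hx).2 ((hψ P).1 (by rw [← hξ]; exact hP)))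
    g' ⟨m + 1, hg'⟩ (by rw [hξ]; intro h3; exact hg'I ((hψ g').1 h3))
    (LinearMap.ker (φ - c • degQ (wOne σ) I))
    (fun x hx hxg => by
      rw [LinearMap.mem_ker, LinearMap.sub_apply, LinearMap.smul_apply, degQ_cls, hc x hx hxg,
        smul_eq_mul, mul_one, sub_self])
    x hx
  rw [LinearMap.mem_ker, LinearMap.sub_apply, LinearMap.smul_apply, degQ_cls, smul_eq_mul,
    mul_one, sub_eq_zero] at hmem
  exact hmem

end Pool.Agent.TT.E
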