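import Mathlib
import Pool.Agent.Helper16.GT.Stmt
import Pool.Agent.Helper56.BBTrdeg
import Pool.Agent.PL.Alg
import Pool.Agent.ThF.OpenA

set_option autoImplicit false
set_option linter.unusedSectionVars false

/-! Project TT, block E, module E5: dimension zero.

PLAN. Let `Ω = AlgebraicClosure K`. For a point `x` of `X` over `Ω` let `𝔮` be the kernel of
`MvPolynomial σ K → RatFunc Ω`, `X j ↦ x j * T` (a prime ideal). It contains `I` (`I` consists
of forms; `ThF.open_aeval_smul`), and `trdeg K (MvPolynomial σ K ⧸ 𝔮) ≥ 1`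
(the class of `X j`, `x j ≠ 0`, maps to `x j * T`, which is transcendental over `K`). If
`Ideal.span I < 𝔮` then `PL.trdeg_lt` gives `2 ≤ trdeg K (MvPolynomial σ K ⧸ Ideal.span I)`. So
`𝔮 = Ideal.span I` for all points. Now let `x, x'` be two points and `𝔓` the kernel of
`MvPolynomial σ Ω → RatFunc Ω`, `X j ↦ x' j * T`. `F.map ∈ 𝔓` iff `F ∈ 𝔮' = Ideal.span I`
for `F` over `K`, so `ThF.open_lift` applies to `𝔓` and `x`: there is `τ` such that `τ x` is a zero of
`𝔓`, in particular of all `C (x' j) * X i - C (x' i) * X j`, so `τ x = c • x'`, `c ≠ 0`. Use `cls_conj`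
and `cls_smul`. -/

namespace Pool.Agent.TT.E

open Pool.Agent.Helper16 Pool.Agent.Helper16.BB Pool.Agent.Helper16.GT

variable {K σ : Type} [Field K] [Infinite K] [Finite σ]
variable {I J : Set (MvPolynomial σ K)}

/-- The generic point of the line through `x`. -/
private noncomputable def ptη (K : Type) {σ : Type} [Field K] (x : σ → AlgebraicClosure K) :
    σ → RatFunc (AlgebraicClosure K) :=
  fun j => RatFunc.X * algebraMap (AlgebraicClosure K) (RatFunc (AlgebraicClosure K)) (x j)

omit [Infinite K] [Finite σ] in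
private theorem ptη_form {P : MvPolynomial σ K} {d : ℕ} (hd : P.IsHomogeneous d)
    (x : σ → AlgebraicClosure K) :
    MvPolynomial.aeval (ptη K x) P = RatFunc.X ^ d *
      algebraMap (AlgebraicClosure K) (RatFunc (AlgebraicClosure K)) (MvPolynomial.aeval x P) := by
  unfold ptη
  rw [ThF.open_aeval_smul hd]
  congr 1
  exact (MvPolynomial.comp_aeval_apply (f := x)
    (IsScalarTower.toAlgHom K (AlgebraicClosure K) (RatFunc (AlgebraicClosure K))) P).symm

omit [Infinite K] in
private theorem pt_ker (hI : ∀ P ∈ I, ∃ d, P.IsHomogeneous d) (hp : (Ideal.span I).IsPrime)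
    (htr : ¬ 2 ≤ Algebra.trdeg K (MvPolynomial σ K ⧸ Ideal.span I))
    (x : σ → AlgebraicClosure K) (hx : IsPoint (wOne σ) I x) :
    RingHom.ker (MvPolynomial.aeval (ptη K x) :
      MvPolynomial σ K →ₐ[K] RatFunc (AlgebraicClosure K)) = Ideal.span I := by
  obtain ⟨hx0, hxI⟩ := (isPoint_wOne I x).1 hx
  have hle : Ideal.span I ≤ RingHom.ker (MvPolynomial.aeval (ptη K x) :
      MvPolynomial σ K →ₐ[K] RatFunc (AlgebraicClosure K)) := by
    rw [Ideal.span_le]
    intro P hP
    obtain ⟨d, hd⟩ := hI P hP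
    change MvPolynomial.aeval (ptη K x) P = 0
    rw [ptη_form hd, hxI P hP, map_zero, mul_zero]
  by_contra hne
  apply htr
  have hlt : Ideal.span I < RingHom.ker (MvPolynomial.aeval (ptη K x) :
      MvPolynomial σ K →ₐ[K] RatFunc (AlgebraicClosure K)) :=
    lt_of_le_of_ne hle fun h => hne h.symm
  have h1 : ((1 : ℕ) : Cardinal) ≤ Algebra.trdeg K (MvPolynomial σ K ⧸
      RingHom.ker (MvPolynomial.aeval (ptη K x) :
        MvPolynomial σ K →ₐ[K] RatFunc (AlgebraicClosure K))) := by
    have : (RingHom.ker (MvPolynomial.aeval (ptη K x) :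
        MvPolynomial σ K →ₐ[K] RatFunc (AlgebraicClosure K))).IsPrime := RingHom.ker_isPrime _
    rw [Nat.cast_one, Cardinal.one_le_iff_ne_zero, _root_.trdeg_ne_zero_iff]
    obtain ⟨i, hi⟩ := Function.ne_iff.1 hx0
    refine ⟨⟨Ideal.Quotient.mk _ (MvPolynomial.X i), fun halg => ?_⟩⟩
    have h2 := halg.algHom (Ideal.Quotient.liftₐ _ (MvPolynomial.aeval (ptη K x)) (fun a ha => ha) :
      (MvPolynomial σ K ⧸ RingHom.ker (MvPolynomial.aeval (ptη K x) :
        MvPolynomial σ K →ₐ[K] RatFunc (AlgebraicClosure K))) →ₐ[K]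
          RatFunc (AlgebraicClosure K))
    have h3 : IsAlgebraic K (ptη K x i) := by
      have h4 : (Ideal.Quotient.liftₐ _ (MvPolynomial.aeval (ptη K x)) (fun a ha => ha) :
        (MvPolynomial σ K ⧸ RingHom.ker (MvPolynomial.aeval (ptη K x) :
          MvPolynomial σ K →ₐ[K] RatFunc (AlgebraicClosure K))) →ₐ[K]
            RatFunc (AlgebraicClosure K)) (Ideal.Quotient.mk _ (MvPolynomial.X i)) = ptη K x i := by
        change MvPolynomial.aeval (ptη K x) (MvPolynomial.X i) = _
        rw [MvPolynomial.aeval_X]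
      rw [h4] at h2
      exact h2
    have h5 : IsAlgebraic K (algebraMap (AlgebraicClosure K) (RatFunc (AlgebraicClosure K))
        ((x i)⁻¹)) := (Algebra.IsAlgebraic.isAlgebraic (R := K) ((x i)⁻¹)).algebraMap
    have h6 : IsAlgebraic K (RatFunc.X : RatFunc (AlgebraicClosure K)) := by
      have h7 := h3.mul h5
      have h8 : ptη K x i * algebraMap (AlgebraicClosure K) (RatFunc (AlgebraicClosure K))
          ((x i)⁻¹) = RatFunc.X := by
        unfold ptη
        rw [mul_assoc, ← map_mul, mul_inv_cancel₀ hi, map_one, mul_one]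
      rwa [h8] at h7
    have h9 : IsAlgebraic (AlgebraicClosure K) (RatFunc.X : RatFunc (AlgebraicClosure K)) :=
      h6.tower_top (AlgebraicClosure K)
    exact RatFunc.transcendental_X h9
  exact_mod_cast PL.trdeg_lt (κ := K) _ _ hp (RingHom.ker_isPrime _) hlt 1 h1

/-- E5. The case of dimension zero. -/
theorem const_of_trdeg_le (hI : ∀ P ∈ I, ∃ d, P.IsHomogeneous d) (hp : (Ideal.span I).IsPrime)
    (htr : ¬ 2 ≤ Algebra.trdeg K (MvPolynomial σ K ⧸ Ideal.span I))
    (x x' : σ → AlgebraicClosure K) (hx : IsPoint (wOne σ) I x) (hx' : IsPoint (wOne σ) I x') :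
    cls (wOne σ) I x = cls (wOne σ) I x' := by
  obtain ⟨hx0, hxI⟩ := (isPoint_wOne I x).1 hx
  obtain ⟨hx0', hxI'⟩ := (isPoint_wOne I x').1 hx'
  obtain ⟨τ, hτ⟩ := ThF.open_lift
    (RingHom.ker (MvPolynomial.aeval (ptη K x') : MvPolynomial σ (AlgebraicClosure K)
      →ₐ[AlgebraicClosure K] RatFunc (AlgebraicClosure K))) x (by
    intro F hF
    have h1 : F ∈ Ideal.span I := by
      rw [← pt_ker hI hp htr x' hx']
      change MvPolynomial.aeval (ptη K x') F = 0
      have h2 : MvPolynomial.aeval (ptη K x') (F.map (algebraMap K (AlgebraicClosure K))) = 0 := hF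
      rwa [MvPolynomial.aeval_map_algebraMap] at h2
    have h3 : Ideal.span I ≤ RingHom.ker (MvPolynomial.aeval x :
        MvPolynomial σ K →ₐ[K] AlgebraicClosure K) := by
      rw [Ideal.span_le]
      intro P hP
      exact hxI P hP
    exact h3 h1)
  have hcross : ∀ i j, x' j * τ (x i) = x' i * τ (x j) := by
    intro i j
    have h1 := hτ (MvPolynomial.C (x' j) * MvPolynomial.X i -
      MvPolynomial.C (x' i) * MvPolynomial.X j) (by
        change MvPolynomial.aeval (ptη K x') _ = 0
        rw [map_sub, map_mul, map_mul, MvPolynomial.aeval_X, MvPolynomial.aeval_X,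
          MvPolynomial.algHom_C, MvPolynomial.algHom_C]
        unfold ptη
        ring)
    rw [map_sub, map_mul, map_mul, MvPolynomial.aeval_X, MvPolynomial.aeval_X,
      MvPolynomial.algHom_C, MvPolynomial.algHom_C, sub_eq_zero] at h1
    exact h1
  obtain ⟨i, hi⟩ := Function.ne_iff.1 hx0'
  have hi' : x' i ≠ 0 := hi
  have hτx : (fun j => τ (x j)) = (τ (x i) / x' i) • x' := by
    funext j
    rw [Pi.smul_apply, smul_eq_mul]
    field_simp
    have := hcross i j
    rw [mul_comm (τ (x j))]
    rw [← this, mul_comm]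
  have hc : τ (x i) / x' i ≠ 0 := by
    intro h0
    rw [h0, zero_smul] at hτx
    apply hx0
    funext j
    have h1 := congrFun hτx j
    have h2 : τ (x j) = 0 := h1
    simpa using h2
  rw [← cls_conj τ x hx, hτx, cls_smul _ hc x' hx']

end Pool.Agent.TT.E
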