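import Pool.Agent.TT.E.Norm
import Pool.Agent.TT.E.Fib
import Pool.Agent.TT.E.Fin
import Pool.Agent.TT.E.Pt

set_option autoImplicit false
set_option linter.unusedSectionVars false

/-! Project TT, block E: assembly. -/

namespace Pool.Agent.TT.E

open Pool.Agent.Helper16 Pool.Agent.Helper16.BB Pool.Agent.Helper16.GT

variable {K σ : Type} [Field K] [Infinite K] [Finite σ]
variable {I J : Set (MvPolynomial σ K)}

theorem nonVan_of_av {N : Type} [Field N] [Algebra K N] (hN : IsFunctionField K N) (z : σ → N)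
    (hI : ∀ P ∈ I, ∃ d, P.IsHomogeneous d) (hz : IsPoint (wOne σ) I z) (h : Av I J z)
    (v : Place K N) : ∃ F ∈ J, NonVan v z F := by
  have := v.finite_resField hN
  obtain ⟨m, hm, h1, h2⟩ := ThF.exists_isSp_wOne hI v z hz IsAlgClosed.lift
  obtain ⟨F, hF, h3⟩ := h v _ h2
  have h4 : (fun j => (z m)⁻¹ * z j) = fun j => z j / z m := by
    funext j
    rw [inv_mul_eq_div]
  refine ⟨F, hF, (z m)⁻¹, fun j => by rw [inv_mul_eq_div]; exact h1 j, ?_⟩
  rw [h4]
  obtain ⟨h5, h6⟩ := aeval_res_eq v (fun j => z j / z m) h1 F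
  refine le_antisymm h5 ?_
  by_contra hlt
  rw [not_le] at hlt
  apply h3
  have h7 : v.res (MvPolynomial.aeval (fun j => z j / z m) F) = 0 := (v.res_eq_zero_iff h5).2 hlt
  have h8 : MvPolynomial.aeval (fun j => (IsAlgClosed.lift : v.resField →ₐ[K] AlgebraicClosure K)
      (v.res (z j / z m))) F = (IsAlgClosed.lift : v.resField →ₐ[K] AlgebraicClosure K)
      (MvPolynomial.aeval (fun j => v.res (z j / z m)) F) :=
    (MvPolynomial.comp_aeval_apply (f := fun j => v.res (z j / z m)) _ F).symm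
  rw [h8, h6, h7, map_zero]

/-- Block E. A functional which is constant on all curves avoiding `V(J)`, of codimension at least
two, and not contained in a given hypersurface, is constant. -/
theorem const_of_codim_two (hI : ∀ P ∈ I, ∃ d, P.IsHomogeneous d) (hp : (Ideal.span I).IsPrime)
    (hJ : ∀ F ∈ J, ∃ m, F.IsHomogeneous m)
    (hJP : ∀ P, IsPD (Ideal.span I) P → ∃ F ∈ J, F ∉ P) (φ : Quo (wOne σ) I →ₗ[ℚ] ℚ)
    (h : MvPolynomial σ K) (hh : ∃ m, h.IsHomogeneous m) (hhI : h ∉ Ideal.span I)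
    (h1 : ∀ (N : Type) [Field N] [Algebra K N] (z : σ → N), IsFunctionField K N →
      IsPoint (wOne σ) I z → MvPolynomial.aeval z h ≠ 0 →
      (∀ v : Place K N, ∃ F ∈ J, NonVan v z F) → CstOn I φ z)
    (h2 : ∀ (N : Type) [Field N] [Algebra K N] (z : σ → N), IsFunctionField K N →
      IsPoint (wOne σ) I z → (∃ c : ℚ, ∀ (v : Place K N) (y : σ → AlgebraicClosure K),
        IsSp (wOne σ) I v z y → c ≤ φ (cls (wOne σ) I y)) → CstOn I φ z) :
    ∃ c : ℚ, ∀ x : σ → AlgebraicClosure K, IsPoint (wOne σ) I x → φ (cls (wOne σ) I x) = c := by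
  by_cases hne : ∃ j, MvPolynomial.X j ∉ Ideal.span I
  swap
  · push Not at hne
    refine ⟨0, fun x hx => ?_⟩
    exfalso
    apply ((isPoint_wOne I x).1 hx).1
    funext j
    have h3 : Ideal.span I ≤ RingHom.ker
        (MvPolynomial.aeval x : MvPolynomial σ K →ₐ[K] AlgebraicClosure K) := by
      rw [Ideal.span_le]
      exact fun P hP => ((isPoint_wOne I x).1 hx).2 P hP
    have h4 := h3 (hne j)
    rw [RingHom.mem_ker, MvPolynomial.aeval_X] at h4
    exact h4
  by_cases htr : 2 ≤ Algebra.trdeg K (MvPolynomial σ K ⧸ Ideal.span I)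
  swap
  · by_cases hx : ∃ x : σ → AlgebraicClosure K, IsPoint (wOne σ) I x
    · obtain ⟨x, hx⟩ := hx
      exact ⟨φ (cls (wOne σ) I x), fun x' hx' => by
        rw [const_of_trdeg_le hI hp htr x' x hx' hx]⟩
    · exact ⟨0, fun x hx' => absurd ⟨x, hx'⟩ hx⟩
  obtain ⟨n, y0, y, G, hC⟩ := exists_crd (Ideal.span I) hp (homI_span hI) J hJ hJP htr
  have hGh := hC.hG
  obtain ⟨m, hm, hGm⟩ := hGh
  have hyG : (MvPolynomial.aeval y G).IsHomogeneous m := by
    have := hGm.aeval y hC.hy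
    rwa [one_mul] at this
  have hyGI : MvPolynomial.aeval y G ∉ Ideal.span I := by
    intro h3
    apply hC.G0
    have h4 := hC.indep.comp some (Option.some_injective _)
    rw [algebraicIndependent_iff] at h4
    apply h4
    have h5 : ((fun o : Option (Fin n) => (Ideal.Quotient.mk (Ideal.span I) (o.elim y0 y) :
        MvPolynomial σ K ⧸ Ideal.span I)) ∘ some) =
        fun i => Ideal.Quotient.mk (Ideal.span I) (y i) := rfl
    rw [h5, aeval_mk, Ideal.Quotient.eq_zero_iff_mem]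
    exact h3
  refine const_of_finite hI hp hne φ (h * MvPolynomial.aeval y G) ?_ ?_
    (φ '' {q : Quo (wOne σ) I | ∃ p : σ → AlgebraicClosure K, IsPoint (wOne σ) I p ∧
      MvPolynomial.aeval p y0 = 1 ∧ (∀ i, MvPolynomial.aeval p (y i) = 0) ∧
      q = cls (wOne σ) I p}) ((fin_fib hC).image φ) ?_ h2
  · obtain ⟨m', hm'⟩ := hh
    exact ⟨m' + m, hm'.mul hyG⟩
  · intro h3
    rcases hp.mem_or_mem h3 with h3 | h3
    · exact hhI h3
    · exact hyGI h3
  · intro x hx hx0
    rw [map_mul] at hx0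
    obtain ⟨N, iN, iA, z, v, v', x', p, hN, hz, hF, hav, hx', hcls, hp', hp0, hpi⟩ :=
      fib hI hp hC x hx (right_ne_zero_of_mul hx0)
    have h3 := h1 N z hN hz (hF h (left_ne_zero_of_mul hx0)) (nonVan_of_av hN z hI hz hav) v v'
      x' p hx' hp'
    rw [hcls] at h3
    rw [h3]
    exact ⟨cls (wOne σ) I p, ⟨p, hp'.1, hp0, hpi, rfl⟩, rfl⟩

end Pool.Agent.TT.E
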