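import Pool.Agent.TT.E.Defs
import Pool.Agent.Helper16.BBLineB
import Pool.Agent.Helper16.BBQuad
import Pool.Agent.Helper16.GC10
import Pool.Agent.PL.Alg
import Pool.Agent.ThF.Conn
import Pool.Agent.ThF.Open

set_option autoImplicit false
set_option linter.unusedSectionVars false
set_option linter.style.haveILetI false

/-! Project TT, block E, module E4, parts (a) and (b). -/

namespace Pool.Agent.TT.E

open Pool.Agent.Helper16 Pool.Agent.Helper16.BB Pool.Agent.Helper16.GT

variable {K σ : Type} [Field K] [Infinite K] [Finite σ]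
variable {I : Set (MvPolynomial σ K)}

omit [Infinite K] in
/-- Part (a): a functional with finitely many values on an open subset is constant on the curves
which meet it. -/
theorem cst_of_open (hI : ∀ P ∈ I, ∃ d, P.IsHomogeneous d) (φ : Quo (wOne σ) I →ₗ[ℚ] ℚ)
    (g : MvPolynomial σ K) (hg : ∃ m, g.IsHomogeneous m)
    (Φ : Set ℚ) (hΦ : Φ.Finite)
    (h1 : ∀ x : σ → AlgebraicClosure K, IsPoint (wOne σ) I x → MvPolynomial.aeval x g ≠ 0 →
      φ (cls (wOne σ) I x) ∈ Φ)
    (h2 : ∀ (N : Type) [Field N] [Algebra K N] (z : σ → N), IsFunctionField K N →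
      IsPoint (wOne σ) I z → (∃ c : ℚ, ∀ (v : Place K N) (y : σ → AlgebraicClosure K),
        IsSp (wOne σ) I v z y → c ≤ φ (cls (wOne σ) I y)) → CstOn I φ z)
    (N : Type) [Field N] [Algebra K N] (z : σ → N) (hN : IsFunctionField K N)
    (hz : IsPoint (wOne σ) I z) (hzg : MvPolynomial.aeval z g ≠ 0) : CstOn I φ z := by
  classical
  refine h2 N z hN hz ?_
  obtain ⟨d, hd⟩ := hg
  have ha0 : ∀ m : σ, z m ≠ 0 → MvPolynomial.aeval (fun j => z j / z m) g ≠ 0 := by
    intro m hm
    have h1 : (fun j => z j / z m) = fun j => (z m)⁻¹ * z j := by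
      funext j
      rw [div_eq_inv_mul]
    rw [h1, ThF.open_aeval_smul hd]
    exact mul_ne_zero (pow_ne_zero _ (inv_ne_zero hm)) hzg
  choose S hS hS' using fun m : σ => hN.product_formula (MvPolynomial.aeval (fun j => z j / z m) g)
  haveI := Fintype.ofFinite σ
  let Bad : Finset (Place K N) := Finset.univ.biUnion S
  have hex : ∀ v : Place K N, ∃ y, IsSp (wOne σ) I v z y ∧
      (v ∉ Bad → φ (cls (wOne σ) I y) ∈ Φ) := by
    intro v
    haveI := v.finite_resField hN
    obtain ⟨m, hm, h3, h4⟩ := ThF.exists_isSp_wOne hI v z hz IsAlgClosed.lift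
    refine ⟨_, h4, fun hv => h1 _ h4.1 ?_⟩
    apply ThF.open_spec_val v z m h3
    by_contra hne
    apply hv
    rw [Finset.mem_biUnion]
    refine ⟨m, Finset.mem_univ m, ?_⟩
    rw [hS]
    intro h0
    exact hne ((v.ord_eq_zero_iff (ha0 m hm)).1 h0)
  choose y hy hy' using hex
  have hfin : (Φ ∪ (fun v => φ (cls (wOne σ) I (y v))) '' (Bad : Set (Place K N))).Finite :=
    hΦ.union (Bad.finite_toSet.image _)
  obtain ⟨c, hc⟩ := hfin.bddBelow
  refine ⟨c, fun v x hx => ?_⟩
  rw [cls_isSp_eq hN v z x (y v) hx (hy v)]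
  apply hc
  by_cases hv : v ∈ Bad
  · exact Or.inr ⟨v, hv, rfl⟩
  · exact Or.inl (hy' v hv)

/-- Part (b): the functional is constant on the open subset. -/
theorem cst_open (hI : ∀ P ∈ I, ∃ d, P.IsHomogeneous d) (hp : (Ideal.span I).IsPrime)
    (φ : Quo (wOne σ) I →ₗ[ℚ] ℚ)
    (g : MvPolynomial σ K) (m : ℕ) (hm : 0 < m) (hg : g.IsHomogeneous m) (hgI : g ∉ Ideal.span I)
    (Φ : Set ℚ) (hΦ : Φ.Finite)
    (h1 : ∀ x : σ → AlgebraicClosure K, IsPoint (wOne σ) I x → MvPolynomial.aeval x g ≠ 0 →
      φ (cls (wOne σ) I x) ∈ Φ)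
    (h2 : ∀ (N : Type) [Field N] [Algebra K N] (z : σ → N), IsFunctionField K N →
      IsPoint (wOne σ) I z → (∃ c : ℚ, ∀ (v : Place K N) (y : σ → AlgebraicClosure K),
        IsSp (wOne σ) I v z y → c ≤ φ (cls (wOne σ) I y)) → CstOn I φ z)
    (x x' : σ → AlgebraicClosure K) (hx : IsPoint (wOne σ) I x) (hx' : IsPoint (wOne σ) I x')
    (hxg : MvPolynomial.aeval x g ≠ 0) (hxg' : MvPolynomial.aeval x' g ≠ 0) :
    φ (cls (wOne σ) I x) = φ (cls (wOne σ) I x') := by
  classical
  haveI := hp
  letI : Algebra (MvPolynomial σ K) (MvPolynomial σ (AlgebraicClosure K)) :=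
    MvPolynomial.algebraMvPolynomial
  have hmap : ∀ F : MvPolynomial σ K, algebraMap (MvPolynomial σ K)
      (MvPolynomial σ (AlgebraicClosure K)) F = F.map (algebraMap K (AlgebraicClosure K)) :=
    fun F => rfl
  haveI : Algebra.IsIntegral (MvPolynomial σ K) (MvPolynomial σ (AlgebraicClosure K)) :=
    inferInstance
  have hinj : Function.Injective (algebraMap (MvPolynomial σ K)
      (MvPolynomial σ (AlgebraicClosure K))) :=
    MvPolynomial.map_injective _ (algebraMap K (AlgebraicClosure K)).injective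
  obtain ⟨𝔓, -, h𝔓, h𝔓I⟩ := Ideal.exists_ideal_over_prime_of_isIntegral (Ideal.span I)
    (⊥ : Ideal (MvPolynomial σ (AlgebraicClosure K))) (fun F hF => by
      rw [Ideal.mem_comap, Ideal.mem_bot] at hF
      rw [hinj (hF.trans (map_zero _).symm)]
      exact zero_mem _)
  haveI := h𝔓
  have h𝔓m : ∀ F : MvPolynomial σ K, F.map (algebraMap K (AlgebraicClosure K)) ∈ 𝔓 ↔
      F ∈ Ideal.span I := by
    intro F
    rw [← h𝔓I, Ideal.mem_comap, hmap]
  let A : Type := MvPolynomial σ (AlgebraicClosure K) ⧸ 𝔓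
  let gb : A := Ideal.Quotient.mk 𝔓 (g.map (algebraMap K (AlgebraicClosure K)))
  have hgb : gb ≠ 0 := by
    intro h
    exact hgI ((h𝔓m g).1 (Ideal.Quotient.eq_zero_iff_mem.1 h))
  let L : Type := Localization.Away gb
  haveI : IsDomain L := IsLocalization.isDomain_localization
    (powers_le_nonZeroDivisors_of_noZeroDivisors hgb)
  let Ψ : MvPolynomial (Option σ) (AlgebraicClosure K) →ₐ[AlgebraicClosure K] L :=
    MvPolynomial.aeval (fun o => o.elim (IsLocalization.Away.invSelf gb)
      (fun j => algebraMap A L (Ideal.Quotient.mk 𝔓 (MvPolynomial.X j))))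
  let q : Ideal (MvPolynomial (Option σ) (AlgebraicClosure K)) := RingHom.ker Ψ
  have hΨ : ∀ F : MvPolynomial σ K, Ψ (MvPolynomial.map (algebraMap K (AlgebraicClosure K))
      (MvPolynomial.rename some F)) =
      algebraMap A L (Ideal.Quotient.mk 𝔓 (F.map (algebraMap K (AlgebraicClosure K)))) := by
    intro F
    rw [MvPolynomial.map_rename]
    generalize F.map (algebraMap K (AlgebraicClosure K)) = G
    have h3 : (Ψ.comp (MvPolynomial.rename some)).toRingHom =
        (algebraMap A L).comp (Ideal.Quotient.mk 𝔓) := by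
      refine MvPolynomial.ringHom_ext (fun a => ?_) (fun j => ?_)
      · change Ψ (MvPolynomial.rename some (MvPolynomial.C a)) =
          algebraMap A L (Ideal.Quotient.mk 𝔓 (MvPolynomial.C a))
        rw [MvPolynomial.rename_C]
        change MvPolynomial.aeval _ (MvPolynomial.C a) = _
        rw [MvPolynomial.aeval_C, IsScalarTower.algebraMap_apply (AlgebraicClosure K) A L]
        rfl
      · change Ψ (MvPolynomial.rename some (MvPolynomial.X j)) =
          algebraMap A L (Ideal.Quotient.mk 𝔓 (MvPolynomial.X j))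
        rw [MvPolynomial.rename_X]
        change MvPolynomial.aeval _ (MvPolynomial.X (some j)) = _
        rw [MvPolynomial.aeval_X]
        rfl
    exact RingHom.congr_fun h3 G
  let 𝒬 : Set (MvPolynomial (Option σ) K) :=
    (MvPolynomial.rename some '' I) ∪ {MvPolynomial.X none * MvPolynomial.rename some g - 1}
  have hq𝒬 : ∀ Q ∈ 𝒬, MvPolynomial.map (algebraMap K (AlgebraicClosure K)) Q ∈ q := by
    rintro Q (⟨P, hP, rfl⟩ | hQ)
    · rw [RingHom.mem_ker, hΨ]
      rw [Ideal.Quotient.eq_zero_iff_mem.2 ((h𝔓m P).2 (Ideal.subset_span hP)), map_zero]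
    · rw [Set.mem_singleton_iff] at hQ
      rw [hQ, RingHom.mem_ker, map_sub, map_mul, map_one, MvPolynomial.map_X, map_sub, map_mul,
        map_one, hΨ]
      have h3 : Ψ (MvPolynomial.X none) = IsLocalization.Away.invSelf gb := by
        change MvPolynomial.aeval _ (MvPolynomial.X none) = _
        rw [MvPolynomial.aeval_X]
        rfl
      rw [h3, mul_comm, sub_eq_zero]
      exact IsLocalization.Away.mul_invSelf gb
  let θ : (Option σ → AlgebraicClosure K) → ℚ := fun c => φ (cls (wOne σ) I (fun j => c (some j)))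
  have hθ := ThF.conn_component 𝒬 θ (by
    intro E _ _ hE ξ hξ u u' ρ ρ' c c' hc hc'
    have hren : ∀ (E : Type) [Field E] [Algebra K E] (ξ : Option σ → E) (P : MvPolynomial σ K),
        MvPolynomial.aeval ξ (MvPolynomial.rename some P) =
          MvPolynomial.aeval (fun j => ξ (some j)) P := by
      intro E _ _ ξ P
      rw [MvPolynomial.aeval_rename]
      rfl
    have hz : ∀ (E : Type) [Field E] [Algebra K E] (ξ : Option σ → E),
        (∀ Q ∈ 𝒬, MvPolynomial.aeval ξ Q = 0) →
        IsPoint (wOne σ) I (fun j => ξ (some j)) ∧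
          MvPolynomial.aeval (fun j => ξ (some j)) g ≠ 0 := by
      intro E _ _ ξ hξ
      have h3 := hξ _ (Or.inr rfl)
      rw [map_sub, map_mul, map_one, MvPolynomial.aeval_X, hren, sub_eq_zero] at h3
      have h4 : MvPolynomial.aeval (fun j => ξ (some j)) g ≠ 0 := by
        intro h0
        rw [h0, mul_zero] at h3
        exact zero_ne_one h3
      refine ⟨(isPoint_wOne I _).2 ⟨fun h0 => h4 ?_, fun P hP => ?_⟩, h4⟩
      · have h5 := ThF.open_aeval_smul hg (0 : E) (fun j => ξ (some j))
        rw [zero_pow hm.ne', zero_mul] at h5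
        have h6 : (fun j => ξ (some j)) = fun j => (0 : E) * ξ (some j) := by
          rw [h0]
          funext j
          rw [zero_mul]
          rfl
        rw [h6]
        exact h5
      · have h5 := hξ _ (Or.inl ⟨P, hP, rfl⟩)
        rwa [hren] at h5
    have hspec : ∀ (u : Place K E) (ρ : u.resField →ₐ[K] AlgebraicClosure K)
        (c : Option σ → AlgebraicClosure K), (∀ i, u.val (ξ i) ≤ 1 ∧ ρ (u.res (ξ i)) = c i) →
        IsSp (wOne σ) I u (fun j => ξ (some j)) (fun j => c (some j)) := by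
      intro u ρ c hc
      have hcQ : ∀ Q ∈ 𝒬, MvPolynomial.aeval c Q = 0 := by
        intro Q hQ
        obtain ⟨-, h5⟩ := aeval_res_eq u ξ (fun i => (hc i).1) Q
        have h6 : MvPolynomial.aeval (fun i => ρ (u.res (ξ i))) Q =
            ρ (MvPolynomial.aeval (fun i => u.res (ξ i)) Q) :=
          (MvPolynomial.comp_aeval_apply (f := fun i => u.res (ξ i)) ρ Q).symm
        have h7 : c = fun i => ρ (u.res (ξ i)) := funext fun i => (hc i).2.symm
        rw [h7, h6, h5, hξ Q hQ, u.res_zero, map_zero]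
      refine ⟨(hz _ c hcQ).1, ρ, fun _ => 1, fun _ => one_ne_zero, fun j => ?_, fun j => ?_⟩
      · rw [scale_one]
        exact (hc (some j)).1
      · rw [scale_one]
        exact (hc (some j)).2.symm
    obtain ⟨hz1, hz2⟩ := hz E ξ hξ
    exact cst_of_open hI φ g ⟨m, hg⟩ Φ hΦ h1 h2 E (fun j => ξ (some j)) hE hz1 hz2 u u' _ _
      (hspec u ρ c hc) (hspec u' ρ' c' hc')) q (RingHom.ker_isPrime Ψ) hq𝒬
  have hpt : ∀ x : σ → AlgebraicClosure K, IsPoint (wOne σ) I x → MvPolynomial.aeval x g ≠ 0 →
      ∃ c : Option σ → AlgebraicClosure K, (∀ Q ∈ q, MvPolynomial.aeval c Q = 0) ∧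
        θ c = φ (cls (wOne σ) I x) := by
    intro x hx hxg
    have hxI : ∀ F ∈ Ideal.span I, MvPolynomial.aeval x F = 0 := by
      intro F hF
      have h3 : Ideal.span I ≤ RingHom.ker
          (MvPolynomial.aeval x : MvPolynomial σ K →ₐ[K] AlgebraicClosure K) := by
        rw [Ideal.span_le]
        exact fun P hP => ((isPoint_wOne I x).1 hx).2 P hP
      exact h3 hF
    obtain ⟨τ, hτ⟩ := ThF.open_lift 𝔓 x (fun F hF => hxI F ((h𝔓m F).1 hF))
    let e : A →ₐ[AlgebraicClosure K] AlgebraicClosure K :=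
      Ideal.Quotient.liftₐ 𝔓 (MvPolynomial.aeval fun j => τ (x j)) hτ
    have he : ∀ P, e (Ideal.Quotient.mk 𝔓 P) = MvPolynomial.aeval (fun j => τ (x j)) P :=
      fun P => rfl
    have heg : e gb = τ (MvPolynomial.aeval x g) := by
      rw [he, MvPolynomial.aeval_map_algebraMap]
      exact (MvPolynomial.comp_aeval_apply (f := x) τ.toAlgHom g).symm
    have heg0 : e gb ≠ 0 := by
      rw [heg]
      simpa using hxg
    have hu : IsUnit ((e : A →+* AlgebraicClosure K) gb) := isUnit_iff_ne_zero.2 heg0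
    let e' : L →+* AlgebraicClosure K := IsLocalization.Away.lift gb hu
    have he' : ∀ a : A, e' (algebraMap A L a) = e a := fun a => IsLocalization.Away.lift_eq gb hu a
    refine ⟨fun o => o.elim (e gb)⁻¹ (fun j => τ (x j)), ?_, ?_⟩
    · intro Q hQ
      have h3 : (MvPolynomial.aeval (fun o : Option σ => (o.elim (e gb)⁻¹ (fun j => τ (x j)) :
          AlgebraicClosure K)) : MvPolynomial (Option σ) (AlgebraicClosure K)
            →ₐ[AlgebraicClosure K] AlgebraicClosure K).toRingHom = e'.comp Ψ.toRingHom := by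
        refine MvPolynomial.ringHom_ext (fun a => ?_) (fun o => ?_)
        · change MvPolynomial.aeval _ (MvPolynomial.C a) = e' (MvPolynomial.aeval _ (MvPolynomial.C a))
          rw [MvPolynomial.aeval_C, MvPolynomial.aeval_C,
            IsScalarTower.algebraMap_apply (AlgebraicClosure K) A L, he']
          exact (e.commutes a).symm
        · change MvPolynomial.aeval _ (MvPolynomial.X o) = e' (MvPolynomial.aeval _ (MvPolynomial.X o))
          rw [MvPolynomial.aeval_X, MvPolynomial.aeval_X]
          cases o with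
          | none =>
            change (e gb)⁻¹ = e' (IsLocalization.Away.invSelf gb)
            have h4 := congrArg e' (IsLocalization.Away.mul_invSelf (S := L) gb)
            rw [map_mul, map_one, he'] at h4
            exact (eq_inv_of_mul_eq_one_right h4).symm
          | some j =>
            change τ (x j) = e' (algebraMap A L (Ideal.Quotient.mk 𝔓 (MvPolynomial.X j)))
            rw [he', he, MvPolynomial.aeval_X]
      have h4 := RingHom.congr_fun h3 Q
      change MvPolynomial.aeval _ Q = e' (Ψ Q) at h4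
      rw [h4, (RingHom.mem_ker).1 hQ, map_zero]
    · exact congrArg φ (cls_conj τ x hx)
  obtain ⟨c, hc, hc2⟩ := hpt x hx hxg
  obtain ⟨c', hc', hc2'⟩ := hpt x' hx' hxg'
  rw [← hc2, ← hc2']
  exact hθ c c' hc hc'

end Pool.Agent.TT.E
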