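import Mathlib
import Pool.Agent.PL.Alg
import Pool.Agent.TT.E.NormB

set_option autoImplicit false
set_option linter.unusedSectionVars false

/-! Project TT, block E, module E2 (second part): codimension two. -/

namespace Pool.Agent.TT.E

open Pool.Agent.Helper16 Pool.Agent.Helper16.BB Pool.Agent.Helper16.GT

variable {K σ : Type} [Field K] [Finite σ]

theorem proj_of_trdeg (Q : Ideal (MvPolynomial σ K)) (hQ : Q.IsPrime)
    (h : 1 ≤ Algebra.trdeg K (MvPolynomial σ K ⧸ Q)) : ∃ j, MvPolynomial.X j ∉ Q := by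
  by_contra hcon
  push Not at hcon
  have h1 : ∀ a : MvPolynomial σ K, a - MvPolynomial.C (MvPolynomial.constantCoeff a) ∈ Q := by
    intro a
    induction a using MvPolynomial.induction_on with
    | C a => rw [MvPolynomial.constantCoeff_C, sub_self]; exact zero_mem _
    | add p q hp hq =>
      rw [map_add, map_add, add_sub_add_comm]
      exact add_mem hp hq
    | mul_X p j hp =>
      rw [map_mul, MvPolynomial.constantCoeff_X, mul_zero, map_zero, sub_zero]
      exact Ideal.mul_mem_left _ _ (hcon j)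
  have h2 := PL.trdeg_le_of_gen (κ := K) Q hQ 0 Fin.elim0 fun a =>
    ⟨MvPolynomial.C (MvPolynomial.constantCoeff a), by
      rw [MvPolynomial.aeval_C]
      exact h1 a⟩
  have h3 := h.trans h2
  simp at h3

theorem const_mem (I : Ideal (MvPolynomial σ K)) (hI : I.IsPrime) (hom : HomI I)
    (F : MvPolynomial σ K) (hF : F ∈ I) : MvPolynomial.constantCoeff F = 0 := by
  by_contra hne
  have h1 := hom F hF 0
  rw [MvPolynomial.homogeneousComponent_zero] at h1
  apply hI.ne_top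
  rw [Ideal.eq_top_iff_one]
  have h2 := Ideal.mul_mem_left I (MvPolynomial.C (MvPolynomial.constantCoeff F)⁻¹) h1
  rw [← map_mul] at h2
  have h3 : MvPolynomial.coeff 0 F = MvPolynomial.constantCoeff F := rfl
  rw [h3, inv_mul_cancel₀ hne, map_one] at h2
  exact h2

/-- There are prime divisors if the dimension of `X` is at least one. -/
theorem exists_isPD (I : Ideal (MvPolynomial σ K)) (hI : I.IsPrime) (hom : HomI I)
    (htr : 2 ≤ Algebra.trdeg K (MvPolynomial σ K ⧸ I)) (f : MvPolynomial σ K) (m : ℕ)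
    (hm : 0 < m) (hf : f.IsHomogeneous m) (hfI : f ∉ I) : ∃ P, IsPD I P := by
  let 𝔪 : Ideal (MvPolynomial σ K) := RingHom.ker (MvPolynomial.constantCoeff (σ := σ) (R := K))
  have h𝔪 : 𝔪.IsPrime := RingHom.ker_isPrime _
  have hI𝔪 : I ≤ 𝔪 := fun F hF => const_mem I hI hom F hF
  have hf𝔪 : f ∈ 𝔪 := by
    change MvPolynomial.constantCoeff f = 0
    by_contra hne
    have h1 := hf hne
    rw [map_zero] at h1
    omega
  obtain ⟨𝔮, h𝔮, hI𝔮, -, hf𝔮, htr𝔮⟩ := PL.exists_cut (κ := K) I 𝔪 hI h𝔪 hI𝔪 f hfI hf𝔪 1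
    (by exact_mod_cast htr)
  obtain ⟨Q', h1, h2, h3, h4⟩ := exists_core 𝔮 h𝔮
  have hfQ : f ∈ Q' := by
    have h5 : HomI (Ideal.span {f}) := homI_span (fun F hF => by
      rw [Set.mem_singleton_iff] at hF
      subst hF
      exact ⟨m, hf⟩)
    exact h4 _ h5 ((Ideal.span_singleton_le_iff_mem _).2 hf𝔮)
      (Ideal.mem_span_singleton_self f)
  have hlt : I < Q' := by
    refine lt_of_le_of_ne (h4 I hom hI𝔮.le) ?_
    rintro rfl
    exact hfI hfQ
  obtain ⟨j, hj⟩ := proj_of_trdeg 𝔮 h𝔮 (by exact_mod_cast htr𝔮)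
  obtain ⟨P, hP, -⟩ := exists_pd I Q' h1 h2 hlt ⟨j, fun h => hj (h3 h)⟩
  exact ⟨P, hP⟩

/-- Removing the constant term. -/
theorem exists_posComp {n : ℕ} (y : Fin n → MvPolynomial σ K) (hy : ∀ i, (y i).IsHomogeneous 1)
    (hn : 0 < n) (J' : Ideal (MvPolynomial σ K)) (hJ' : HomI J') (G : MvPolynomial (Fin n) K)
    (hG : G ≠ 0) (hGJ : MvPolynomial.aeval y G ∈ J') :
    ∃ (G' : MvPolynomial (Fin n) K) (m : ℕ), G' ≠ 0 ∧ 0 < m ∧ G'.IsHomogeneous m ∧
      MvPolynomial.aeval y G' ∈ J' := by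
  set H := G * MvPolynomial.X (⟨0, hn⟩ : Fin n) with hH
  have hH0 : H ≠ 0 := mul_ne_zero hG (MvPolynomial.X_ne_zero _)
  have hm : ∃ m, MvPolynomial.homogeneousComponent m H ≠ 0 := by
    by_contra hcon
    push Not at hcon
    apply hH0
    rw [← MvPolynomial.sum_homogeneousComponent H]
    exact Finset.sum_eq_zero fun i _ => hcon i
  obtain ⟨m, hm⟩ := hm
  refine ⟨MvPolynomial.homogeneousComponent m H, m, hm, ?_,
    MvPolynomial.homogeneousComponent_isHomogeneous m H, ?_⟩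
  · rcases Nat.eq_zero_or_pos m with h0 | h0
    · exfalso
      apply hm
      subst h0
      rw [MvPolynomial.homogeneousComponent_zero]
      have h1 : MvPolynomial.coeff 0 H = MvPolynomial.constantCoeff H := rfl
      rw [h1, hH, map_mul, MvPolynomial.constantCoeff_X, mul_zero, map_zero]
    · exact h0
  · rw [← comp_aeval y hy]
    apply hJ'
    rw [hH, map_mul]
    exact Ideal.mul_mem_right _ _ hGJ

/-- A form in `n = dim X` linear forms vanishing on `V(J)`. -/
theorem exists_G (I : Ideal (MvPolynomial σ K)) (hI : I.IsPrime) (hom : HomI I)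
    (J : Set (MvPolynomial σ K)) (hJ : ∀ F ∈ J, ∃ m, F.IsHomogeneous m)
    (hJP : ∀ P, IsPD I P → ∃ F ∈ J, F ∉ P) (hJI : ∃ F ∈ J, F ∉ I) {n : ℕ}
    (y : Fin n → MvPolynomial σ K) (hy : ∀ i, (y i).IsHomogeneous 1) (hn : 0 < n)
    (htr : Algebra.trdeg K (MvPolynomial σ K ⧸ I) = (n + 1 : ℕ)) :
    ∃ (G : MvPolynomial (Fin n) K) (m : ℕ), G ≠ 0 ∧ 0 < m ∧ G.IsHomogeneous m ∧
      MvPolynomial.aeval y G ∈ Ideal.span J ⊔ I := by
  by_contra hcon
  set J' := Ideal.span J ⊔ I with hJ'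
  have hJ'h : HomI J' := (homI_span hJ).sup hom
  have hG : ∀ G : MvPolynomial (Fin n) K, G ≠ 0 → MvPolynomial.aeval y G ∉ J' := by
    intro G hG hGJ
    exact hcon (exists_posComp y hy hn J' hJ'h G hG hGJ)
  let M : Submonoid (MvPolynomial σ K) :=
    (nonZeroDivisors (MvPolynomial (Fin n) K)).map (MvPolynomial.aeval y : MvPolynomial (Fin n) K →ₐ[K] MvPolynomial σ K)
  have hM : ∀ G : MvPolynomial (Fin n) K, G ≠ 0 → MvPolynomial.aeval y G ∈ M := fun G hG =>
    ⟨G, mem_nonZeroDivisors_of_ne_zero hG, rfl⟩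
  have hdisj : Disjoint (J' : Set (MvPolynomial σ K)) M := by
    rw [Set.disjoint_left]
    rintro _ hF ⟨G, hG0, rfl⟩
    exact hG G (nonZeroDivisors.ne_zero hG0) hF
  obtain ⟨Q, hQ, hJQ, hQM⟩ := Ideal.exists_le_prime_disjoint J' M hdisj
  obtain ⟨Q', h1, h2, h3, h4⟩ := exists_core Q hQ
  have hJQ' : J' ≤ Q' := h4 J' hJ'h hJQ
  have hind : AlgebraicIndependent K (fun i => Ideal.Quotient.mk Q' (y i)) := by
    rw [algebraicIndependent_iff]
    intro G hG0
    rw [aeval_mk, Ideal.Quotient.eq_zero_iff_mem] at hG0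
    by_contra hne
    exact (Set.disjoint_left.1 hQM) (h3 hG0) (hM G hne)
  have := h1
  have htr' : ((n : ℕ) : Cardinal) ≤ Algebra.trdeg K (MvPolynomial σ K ⧸ Q') := by
    have h5 := hind.cardinalMk_le_trdeg
    rwa [Cardinal.mk_fin] at h5
  have hproj : ∃ j, MvPolynomial.X j ∉ Q' := proj_of_trdeg Q' h1 (le_trans (by exact_mod_cast hn) htr')
  have hlt : I < Q' := by
    refine lt_of_le_of_ne ((le_sup_right).trans hJQ') ?_
    obtain ⟨F, hF, hFI⟩ := hJI
    rintro rfl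
    exact hFI (hJQ' (Ideal.mem_sup_left (Ideal.subset_span hF)))
  obtain ⟨P, hP, hPQ⟩ := exists_pd I Q' h1 h2 hlt hproj
  have hPQ' : P < Q' := by
    refine lt_of_le_of_ne hPQ ?_
    obtain ⟨F, hF, hFP⟩ := hJP P hP
    rintro rfl
    exact hFP (hJQ' (Ideal.mem_sup_left (Ideal.subset_span hF)))
  have h5 := PL.trdeg_lt (κ := K) P Q' hP.prime h1 hPQ' n htr'
  have h6 := PL.trdeg_lt (κ := K) I P hI hP.prime hP.lt (n + 1) h5
  rw [htr] at h6
  have h7 : n + 1 + 1 ≤ n + 1 := by exact_mod_cast h6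
  omega

end Pool.Agent.TT.E
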