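import Mathlib
import Pool.Agent.TT.E.NormC
import Pool.Agent.ThF.OpenA

set_option autoImplicit false
set_option linter.unusedSectionVars false

/-! Project TT, block E, modules E1, E2: good coordinates. -/

namespace Pool.Agent.TT.E

open Pool.Agent.Helper16 Pool.Agent.Helper16.BB Pool.Agent.Helper16.GT

variable {K σ : Type} [Field K]

theorem aeval_smul_I (I : Ideal (MvPolynomial σ K)) (hom : HomI I) {N : Type} [Field N]
    [Algebra K N] (p : σ → N) (hp : ∀ P ∈ I, MvPolynomial.aeval p P = 0) (c : N)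
    (P : MvPolynomial σ K) (hP : P ∈ I) : MvPolynomial.aeval (fun j => c * p j) P = 0 := by
  rw [← MvPolynomial.sum_homogeneousComponent P, map_sum]
  refine Finset.sum_eq_zero fun i _ => ?_
  rw [ThF.open_aeval_smul (MvPolynomial.homogeneousComponent_isHomogeneous i P),
    hp _ (hom P hP i), mul_zero]

/-- If all members of a family of linear forms over which the coordinate ring is integral vanish
at `p`, then `p = 0`. -/
theorem eq_zero_of_int [Infinite K] {τ : Type} (I : Ideal (MvPolynomial σ K)) (hom : HomI I)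
    (y : τ → MvPolynomial σ K) (hy : ∀ i, (y i).IsHomogeneous 1)
    (hint : ∀ f : MvPolynomial σ K, ∃ p : Polynomial (MvPolynomial τ K), p.Monic ∧
      p.eval₂ (MvPolynomial.aeval y : MvPolynomial τ K →ₐ[K] MvPolynomial σ K).toRingHom f ∈ I)
    {N : Type} [Field N] [Algebra K N] (p : σ → N) (hp : ∀ P ∈ I, MvPolynomial.aeval p P = 0)
    (hpy : ∀ i, MvPolynomial.aeval p (y i) = 0) : p = 0 := by
  by_contra hne
  obtain ⟨j, hj⟩ := Function.ne_iff.1 hne
  rw [Pi.zero_apply] at hj
  obtain ⟨q, hq, hqI⟩ := hint (MvPolynomial.X j)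
  let ψ : MvPolynomial τ K →+* N :=
    (algebraMap K N).comp (MvPolynomial.constantCoeff (σ := τ) (R := K))
  have hroot : ∀ c : K, (q.map ψ).eval (algebraMap K N c * p j) = 0 := by
    intro c
    have h1 := aeval_smul_I I hom p hp (algebraMap K N c) _ hqI
    let E : MvPolynomial σ K →+* N :=
      (MvPolynomial.aeval (fun j => algebraMap K N c * p j) : MvPolynomial σ K →ₐ[K] N).toRingHom
    have h2 : E (q.eval₂ (MvPolynomial.aeval y : MvPolynomial τ K →ₐ[K] MvPolynomial σ K).toRingHom
        (MvPolynomial.X j)) = 0 := h1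
    rw [Polynomial.hom_eval₂] at h2
    rw [Polynomial.eval_map]
    have h3 : E.comp (MvPolynomial.aeval y : MvPolynomial τ K →ₐ[K] MvPolynomial σ K).toRingHom
        = ψ := by
      apply MvPolynomial.ringHom_ext
      · intro a
        change MvPolynomial.aeval _ (MvPolynomial.aeval y (MvPolynomial.C a)) = algebraMap K N _
        rw [MvPolynomial.aeval_C, MvPolynomial.constantCoeff_C]
        exact MvPolynomial.aeval_C _ _
      · intro i
        change MvPolynomial.aeval _ (MvPolynomial.aeval y (MvPolynomial.X i)) = algebraMap K N _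
        rw [MvPolynomial.aeval_X, MvPolynomial.constantCoeff_X, map_zero,
          ThF.open_aeval_smul (hy i), hpy i, mul_zero]
    have h4 : E (MvPolynomial.X j) = algebraMap K N c * p j := by
      change MvPolynomial.aeval _ (MvPolynomial.X j) = _
      rw [MvPolynomial.aeval_X]
    rw [h3, h4] at h2
    exact h2
  have hq0 : q.map ψ ≠ 0 := (hq.map ψ).ne_zero
  apply hq0
  apply Polynomial.eq_zero_of_infinite_isRoot
  have hinj : Function.Injective fun c : K => algebraMap K N c * p j := by
    intro c c' hcc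
    exact (algebraMap K N).injective (mul_right_cancel₀ hj hcc)
  refine (Set.infinite_range_of_injective hinj).mono ?_
  rintro _ ⟨c, rfl⟩
  exact hroot c

/-- A basis adapted to a hyperplane. -/
theorem exists_hyper {V : Type} [AddCommGroup V] [Module K V] [FiniteDimensional K V]
    (γ : V →ₗ[K] K) (bs : V) (hbs : γ bs = 1) (n : ℕ) (hn : Module.finrank K V = n + 1) :
    ∃ B : Module.Basis (Fin (n + 1)) K V, B 0 = bs ∧ (∀ i : Fin n, γ (B i.succ) = 0) ∧
      ∀ u : V, γ u = 0 → u = ∑ i : Fin n, B.repr u i.succ • B i.succ := by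
  have hker : Module.finrank K (LinearMap.ker γ) = n := by
    have h1 := LinearMap.finrank_range_add_finrank_ker γ
    have h2 : LinearMap.range γ = ⊤ := by
      rw [LinearMap.range_eq_top]
      intro a
      exact ⟨a • bs, by rw [map_smul, hbs, smul_eq_mul, mul_one]⟩
    rw [h2, finrank_top, Module.finrank_self, hn] at h1
    omega
  let b' : Module.Basis (Fin n) K (LinearMap.ker γ) :=
    Module.finBasisOfFinrankEq K (LinearMap.ker γ) hker
  let B : Module.Basis (Fin (n + 1)) K V := Module.Basis.mkFinCons bs b'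
    (by
      intro a x hx hax
      have h1 := congrArg γ hax
      have h2 : γ x = 0 := hx
      rwa [map_add, map_smul, hbs, h2, smul_eq_mul, mul_one, add_zero, map_zero] at h1)
    (by
      intro z
      refine ⟨-γ z, ?_⟩
      rw [LinearMap.mem_ker, map_add, map_smul, hbs, smul_eq_mul, mul_one, add_neg_cancel])
  have hB : (B : Fin (n + 1) → V) = Fin.cons bs (fun i => (b' i : V)) :=
    Module.Basis.coe_mkFinCons _ _ _ _
  have hB0 : B 0 = bs := by rw [hB]; rfl
  have hBs : ∀ i : Fin n, B i.succ = b' i := fun i => by rw [hB]; rfl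
  have hγB : ∀ i : Fin n, γ (B i.succ) = 0 := fun i => by rw [hBs]; exact (b' i).2
  refine ⟨B, hB0, hγB, fun u hu => ?_⟩
  have h1 := B.sum_repr u
  rw [Fin.sum_univ_succ] at h1
  have h2 := congrArg γ h1
  rw [map_add, map_smul, hB0, hbs, map_sum, Finset.sum_eq_zero, add_zero, smul_eq_mul, mul_one,
    hu] at h2
  · rw [h2, zero_smul, zero_add] at h1
    exact h1.symm
  · intro i _
    rw [map_smul, hγB, smul_zero]

variable [Finite σ]

/-- E2. Good coordinates. -/
theorem exists_crd [Infinite K] (I : Ideal (MvPolynomial σ K)) (hI : I.IsPrime) (hom : HomI I)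
    (J : Set (MvPolynomial σ K)) (hJ : ∀ F ∈ J, ∃ m, F.IsHomogeneous m)
    (hJP : ∀ P, IsPD I P → ∃ F ∈ J, F ∉ P)
    (htr : 2 ≤ Algebra.trdeg K (MvPolynomial σ K ⧸ I)) :
    ∃ (n : ℕ) (y0 : MvPolynomial σ K) (y : Fin n → MvPolynomial σ K) (G : MvPolynomial (Fin n) K),
      Crd I J y0 y G := by
  classical
  have := Fintype.ofFinite σ
  have := hI
  obtain ⟨U, hU, hind⟩ := exists_norm I hI hom
  let b₀ := Module.finBasis K U
  have hd := trdeg_of_int (linL I) U hU b₀ (hind _ b₀)
  obtain ⟨n, hn⟩ : ∃ n, Module.finrank K U = n + 1 := by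
    rw [hd] at htr
    have h1 : 2 ≤ Module.finrank K U := by exact_mod_cast htr
    exact ⟨Module.finrank K U - 1, by omega⟩
  have hn0 : 0 < n := by
    rw [hd, hn] at htr
    have h1 : 2 ≤ n + 1 := by exact_mod_cast htr
    omega
  let b : Module.Basis (Fin (n + 1)) K U := Module.finBasisOfFinrankEq K U hn
  have hbI : ∀ i, lin (b i : σ → K) ∉ I := by
    intro i h0
    exact (hind _ b).ne_zero i (Ideal.Quotient.eq_zero_iff_mem.2 h0)
  obtain ⟨P₀, hP₀⟩ := exists_isPD I hI hom htr _ 1 one_pos (lin_hom (b 0 : σ → K)) (hbI 0)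
  have hJI : ∃ F ∈ J, F ∉ I := by
    obtain ⟨F, hF, hFP⟩ := hJP P₀ hP₀
    exact ⟨F, hF, fun h => hFP (hP₀.lt.le h)⟩
  set J' := Ideal.span J ⊔ I with hJ'
  have hJ'h : HomI J' := (homI_span hJ).sup hom
  -- a form in the `b i` vanishing on `V(J)`
  obtain ⟨F, m, hF0, hm, hFh, hFJ⟩ : ∃ (F : MvPolynomial (Fin (n + 1)) K) (m : ℕ), F ≠ 0 ∧
      0 < m ∧ F.IsHomogeneous m ∧ MvPolynomial.aeval (fun i => lin (b i : σ → K)) F ∈ J' := by
    obtain ⟨f, hf, hfI⟩ := hJI
    have hf0 : Ideal.Quotient.mk I f ≠ 0 := fun h => hfI (Ideal.Quotient.eq_zero_iff_mem.1 h)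
    obtain ⟨r, hr, hdvd⟩ := (hU (Ideal.Quotient.mk I f)).isAlgebraic.exists_nonzero_dvd
      (mem_nonZeroDivisors_of_ne_zero hf0)
    obtain ⟨r, hr'⟩ := r
    have h1 := hr'
    rw [adjoin_basis (linL I) U b, Algebra.adjoin_range_eq_range_aeval] at h1
    obtain ⟨P, hP⟩ := h1
    have hP1 : MvPolynomial.aeval (fun i => linL I (b i : σ → K)) P = r := hP
    have hP0 : P ≠ 0 := by
      rintro rfl
      rw [map_zero] at hP1
      exact hr (Subtype.ext hP1.symm)
    refine exists_posComp _ (fun i => lin_hom _) (Nat.succ_pos n) J' hJ'h P hP0 ?_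
    obtain ⟨g, hg⟩ := hdvd
    obtain ⟨g, rfl⟩ := Ideal.Quotient.mk_surjective g
    have h2 : r = Ideal.Quotient.mk I f * Ideal.Quotient.mk I g := hg
    have h3 : MvPolynomial.aeval (fun i => lin (b i : σ → K)) P - f * g ∈ I := by
      rw [← Ideal.Quotient.eq_zero_iff_mem, map_sub, ← aeval_mk, map_mul, ← h2]
      rw [sub_eq_zero]
      exact hP1
    have h4 := add_mem (Ideal.mem_sup_right (S := Ideal.span J) h3)
      (Ideal.mem_sup_left (T := I) (Ideal.mul_mem_right g (Ideal.span J) (Ideal.subset_span hf)))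
    rwa [sub_add_cancel] at h4
  obtain ⟨c, hc⟩ : ∃ c : Fin (n + 1) → K, MvPolynomial.eval c F ≠ 0 := by
    by_contra hcon
    push Not at hcon
    exact hF0 (MvPolynomial.funext fun c => by rw [hcon c, map_zero])
  obtain ⟨i, hi⟩ : ∃ i, c i ≠ 0 := by
    by_contra hcon
    push Not at hcon
    have hc1 : c = 0 := funext hcon
    apply hc
    rw [hc1, MvPolynomial.eval_zero, MvPolynomial.constantCoeff_eq]
    by_contra hne
    have h1 := hFh hne
    rw [map_zero] at h1
    omega
  let γ : U →ₗ[K] K := b.constr K c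
  have hγ : ∀ j, γ (b j) = c j := fun j => b.constr_basis K c j
  let bs : U := (c i)⁻¹ • b i
  have hbs : γ bs = 1 := by
    simp only [bs, map_smul, hγ, smul_eq_mul]
    exact inv_mul_cancel₀ hi
  obtain ⟨B, hB0, hγB, hBker⟩ := exists_hyper γ bs hbs n hn
  let y0 : MvPolynomial σ K := lin (bs : σ → K)
  let y : Fin n → MvPolynomial σ K := fun i => lin ((B i.succ : U) : σ → K)
  let e : Option (Fin n) ≃ Fin (n + 1) := (finSuccEquiv n).symm
  have he : ∀ o : Option (Fin n), o.elim y0 y = lin ((B (e o) : U) : σ → K) := by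
    intro o
    rcases o with _ | o
    · have h1 : e none = 0 := finSuccEquiv_symm_none
      rw [h1, hB0]
      rfl
    · have h1 : e (some o) = o.succ := finSuccEquiv_symm_some o
      rw [h1]
      rfl
  have hindB := hind _ B
  -- integrality
  have hint : ∀ f : MvPolynomial σ K, ∃ p : Polynomial (MvPolynomial (Option (Fin n)) K),
      p.Monic ∧ p.eval₂ (MvPolynomial.aeval (fun o : Option (Fin n) => o.elim y0 y) :
        MvPolynomial (Option (Fin n)) K →ₐ[K] MvPolynomial σ K).toRingHom f ∈ I := by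
    intro f
    have hUf := hU (Ideal.Quotient.mk I f)
    set A := Algebra.adjoin K (linL I '' (U : Set (σ → K))) with hA
    obtain ⟨p, hp, hp0⟩ := hUf
    have hA' : A = (MvPolynomial.aeval (fun o : Option (Fin n) =>
        (Ideal.Quotient.mk I (o.elim y0 y) : MvPolynomial σ K ⧸ I)) :
        MvPolynomial (Option (Fin n)) K →ₐ[K] MvPolynomial σ K ⧸ I).range := by
      rw [hA, adjoin_basis (linL I) U B, ← Algebra.adjoin_range_eq_range_aeval]
      congr 1
      ext s
      constructor
      · rintro ⟨j, rfl⟩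
        refine ⟨e.symm j, ?_⟩
        change Ideal.Quotient.mk I ((e.symm j).elim y0 y) = _
        rw [he, Equiv.apply_symm_apply]
        rfl
      · rintro ⟨o, rfl⟩
        refine ⟨e o, ?_⟩
        change _ = Ideal.Quotient.mk I (o.elim y0 y)
        rw [he]
        rfl
    let φ : MvPolynomial (Option (Fin n)) K →ₐ[K] A :=
      (MvPolynomial.aeval (fun o : Option (Fin n) =>
        (Ideal.Quotient.mk I (o.elim y0 y) : MvPolynomial σ K ⧸ I))).codRestrict A (fun x => by
          rw [hA']
          exact ⟨x, rfl⟩)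
    have hφ : Function.Surjective φ := by
      rintro ⟨a, ha⟩
      have ha' := ha
      rw [hA'] at ha'
      obtain ⟨x, hx⟩ := ha'
      exact ⟨x, Subtype.ext hx⟩
    have hlift : p ∈ Polynomial.lifts (φ : MvPolynomial (Option (Fin n)) K →+* A) := by
      rw [Polynomial.lifts_iff_coeff_lifts]
      intro j
      obtain ⟨x, hx⟩ := hφ (p.coeff j)
      exact ⟨x, hx⟩
    obtain ⟨q, hq, -, hqm⟩ := Polynomial.lifts_and_natDegree_eq_and_monic hlift hp
    refine ⟨q, hqm, ?_⟩
    rw [← Ideal.Quotient.eq_zero_iff_mem, Polynomial.hom_eval₂, ← hp0, ← hq, Polynomial.eval₂_map]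
    congr 1
    apply MvPolynomial.ringHom_ext
    · intro a
      change Ideal.Quotient.mk I (MvPolynomial.aeval _ (MvPolynomial.C a)) =
        MvPolynomial.aeval _ (MvPolynomial.C a)
      rw [MvPolynomial.aeval_C, MvPolynomial.aeval_C]
      rfl
    · intro o
      change Ideal.Quotient.mk I (MvPolynomial.aeval _ (MvPolynomial.X o)) =
        MvPolynomial.aeval _ (MvPolynomial.X o)
      rw [MvPolynomial.aeval_X, MvPolynomial.aeval_X]
  have hyh : ∀ i, (y i).IsHomogeneous 1 := fun i => lin_hom _
  obtain ⟨G, m', hG0, hm', hGh, hGJ⟩ := exists_G I hI hom J hJ hJP hJI y hyh hn0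
    (by rw [hd, hn])
  refine ⟨n, y0, y, G, lin_hom _, hyh, ?_, hint, ?_, ⟨m', hm', hGh⟩, hG0, hGJ⟩
  · have h1 := hindB.comp e e.injective
    have h2 : (fun o : Option (Fin n) => (Ideal.Quotient.mk I (o.elim y0 y) :
        MvPolynomial σ K ⧸ I)) = (fun i => linL I (B i : σ → K)) ∘ e := by
      funext o
      rw [Function.comp_apply, he]
      rfl
    rw [h2]
    exact h1
  · intro N _ _ p hp hpI hpy
    by_contra hcon
    push Not at hcon
    have hJ0 : ∀ P ∈ J', MvPolynomial.aeval p P = 0 := by
      have h1 : J' ≤ RingHom.ker (MvPolynomial.aeval p : MvPolynomial σ K →ₐ[K] N) := by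
        refine sup_le ?_ (fun P hP => hpI P hP)
        rw [Ideal.span_le]
        exact fun P hP => hcon P hP
      exact fun P hP => h1 hP
    -- all linear forms in the kernel of `γ` vanish at `p`
    have hlinmap : ∀ u v : σ → K, MvPolynomial.aeval p (lin (u + v)) =
        MvPolynomial.aeval p (lin u) + MvPolynomial.aeval p (lin v) := by
      intro u v
      simp only [lin, map_sum, map_mul, MvPolynomial.aeval_C, MvPolynomial.aeval_X,
        Pi.add_apply, map_add, add_mul, Finset.sum_add_distrib]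
    have hlinsmul : ∀ (a : K) (u : σ → K), MvPolynomial.aeval p (lin (a • u)) =
        algebraMap K N a * MvPolynomial.aeval p (lin u) := by
      intro a u
      simp only [lin, map_sum, map_mul, MvPolynomial.aeval_C, MvPolynomial.aeval_X,
        Pi.smul_apply, smul_eq_mul, Finset.mul_sum, mul_assoc]
    let Λ : (σ → K) →ₗ[K] N :=
      { toFun := fun u => MvPolynomial.aeval p (lin u)
        map_add' := hlinmap
        map_smul' := fun a u => by
          rw [hlinsmul, RingHom.id_apply, Algebra.smul_def] }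
    have hΛ : ∀ u, Λ u = MvPolynomial.aeval p (lin u) := fun u => rfl
    have hkerΛ : ∀ u : U, γ u = 0 → Λ (u : σ → K) = 0 := by
      intro u hu
      rw [hBker u hu, Submodule.coe_sum, map_sum]
      refine Finset.sum_eq_zero fun i _ => ?_
      rw [Submodule.coe_smul, map_smul, hΛ]
      have h3 : MvPolynomial.aeval p (lin ((B i.succ : U) : σ → K)) = 0 := hpy i
      rw [h3, smul_zero]
    have hall : ∀ u : U, Λ (u : σ → K) = algebraMap K N (γ u) * Λ (bs : σ → K) := by
      intro u
      have h1 := hkerΛ (u - γ u • bs) (by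
        rw [map_sub, map_smul, hbs, smul_eq_mul, mul_one, sub_self])
      rw [Submodule.coe_sub, Submodule.coe_smul, map_sub, map_smul, sub_eq_zero] at h1
      rw [h1, Algebra.smul_def]
    have hF1 := hJ0 _ hFJ
    have h5 : MvPolynomial.aeval p (MvPolynomial.aeval (fun i => lin (b i : σ → K)) F) =
        MvPolynomial.aeval (fun i => Λ (b i : σ → K)) F :=
      MvPolynomial.comp_aeval_apply (f := fun i => lin (b i : σ → K)) (MvPolynomial.aeval p) F
    have h6 : (fun i => Λ (b i : σ → K)) = fun i => Λ (bs : σ → K) * algebraMap K N (c i) := by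
      funext i
      rw [hall, hγ, mul_comm]
    rw [h5, h6, ThF.open_aeval_smul hFh] at hF1
    have h7 : MvPolynomial.aeval (fun i => algebraMap K N (c i)) F =
        algebraMap K N (MvPolynomial.eval c F) := by
      have h8 := MvPolynomial.comp_aeval_apply (f := c) (Algebra.ofId K N) F
      have h9 : (MvPolynomial.aeval c F : K) = MvPolynomial.eval c F := by
        rw [← MvPolynomial.coe_aeval_eq_eval]
        rfl
      rw [h9] at h8
      exact h8.symm
    rw [h7] at hF1
    have hbs0 : Λ (bs : σ → K) = 0 := by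
      rcases mul_eq_zero.1 hF1 with h | h
      · exact pow_eq_zero_iff hm.ne' |>.1 h
      · exact absurd ((map_eq_zero (algebraMap K N)).1 h) hc
    apply hp
    refine eq_zero_of_int I hom (fun o : Option (Fin n) => o.elim y0 y) ?_ hint p hpI ?_
    · intro o
      rcases o with _ | o
      · exact lin_hom _
      · exact lin_hom _
    · intro o
      rcases o with _ | o
      · exact hbs0
      · exact hpy o

end Pool.Agent.TT.E
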