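import Pool.Agent.TT.E.Defs

set_option autoImplicit false
set_option linter.unusedSectionVars false

/-! Project TT, block E, module E1: linear Noether normalisation. -/

namespace Pool.Agent.TT.E

open Pool.Agent.Helper16 Pool.Agent.Helper16.BB Pool.Agent.Helper16.GT

section lead

variable {K B τ : Type} [Field K] [CommRing B] [Algebra K B]

/-- The linear polynomial `w + c T`. -/
noncomputable def lp (w : τ → B) (c : τ → K) (j : τ) : Polynomial B :=
  Polynomial.C (w j) + Polynomial.C (algebraMap K B (c j)) * Polynomial.X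

theorem lp_natDegree (w : τ → B) (c : τ → K) (j : τ) : (lp w c j).natDegree ≤ 1 := by
  unfold lp
  refine (Polynomial.natDegree_add_le _ _).trans (max_le ?_
    ((Polynomial.natDegree_C_mul_le _ _).trans Polynomial.natDegree_X_le))
  rw [Polynomial.natDegree_C]
  exact Nat.zero_le _

theorem lp_coeff (w : τ → B) (c : τ → K) (j : τ) : (lp w c j).coeff 1 = algebraMap K B (c j) := by
  unfold lp
  rw [Polynomial.coeff_add, Polynomial.coeff_C_mul, Polynomial.coeff_X_one, mul_one,
    Polynomial.coeff_C_of_ne_zero one_ne_zero, zero_add]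

theorem lp_prod (w : τ → B) (c : τ → K) (s : τ → ℕ) (t : Finset τ) :
    (∏ j ∈ t, lp w c j ^ s j).natDegree ≤ ∑ j ∈ t, s j ∧
      (∏ j ∈ t, lp w c j ^ s j).coeff (∑ j ∈ t, s j) = algebraMap K B (∏ j ∈ t, c j ^ s j) := by
  classical
  induction t using Finset.induction_on with
  | empty => simp
  | insert a t ha ih =>
    rw [Finset.prod_insert ha, Finset.sum_insert ha, Finset.prod_insert ha]
    have h1 : (lp w c a ^ s a).natDegree ≤ s a := by
      have := Polynomial.natDegree_pow_le_of_le (s a) (lp_natDegree w c a)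
      rwa [mul_one] at this
    refine ⟨Polynomial.natDegree_mul_le_of_le h1 ih.1, ?_⟩
    rw [Polynomial.coeff_mul_add_eq_of_natDegree_le h1 ih.1, ih.2, map_mul, map_pow]
    congr 1
    have := Polynomial.coeff_pow_of_natDegree_le (m := s a) (lp_natDegree w c a)
    rw [mul_one] at this
    rw [this, lp_coeff]

/-- The leading coefficient of `P(w + c T)`. -/
theorem lead (P : MvPolynomial τ K) (m : ℕ) (hP : P.IsHomogeneous m) (w : τ → B) (c : τ → K) :
    (MvPolynomial.aeval (lp w c) P : Polynomial B).natDegree ≤ m ∧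
      (MvPolynomial.aeval (lp w c) P : Polynomial B).coeff m =
        algebraMap K B (MvPolynomial.eval c P) := by
  rw [MvPolynomial.aeval_def, MvPolynomial.eval₂_eq, MvPolynomial.eval_eq]
  have hdeg : ∀ s ∈ P.support, ∑ j ∈ s.support, s j = m := by
    intro s hs
    have h2 := hP (MvPolynomial.mem_support_iff.1 hs)
    rw [← h2]
    exact DFunLike.congr_fun Finsupp.degree_eq_weight_one s
  have hterm : ∀ s ∈ P.support, (algebraMap K (Polynomial B) (P.coeff s) *
      ∏ j ∈ s.support, lp w c j ^ s j).natDegree ≤ m ∧ (algebraMap K (Polynomial B) (P.coeff s) *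
      ∏ j ∈ s.support, lp w c j ^ s j).coeff m =
        algebraMap K B (P.coeff s * ∏ j ∈ s.support, c j ^ s j) := by
    intro s hs
    obtain ⟨h1, h2⟩ := lp_prod w c s s.support
    rw [hdeg s hs] at h1 h2
    have h3 : algebraMap K (Polynomial B) (P.coeff s) =
        Polynomial.C (algebraMap K B (P.coeff s)) := rfl
    rw [h3]
    refine ⟨(Polynomial.natDegree_C_mul_le _ _).trans h1, ?_⟩
    rw [Polynomial.coeff_C_mul, h2, map_mul]
  constructor
  · exact Polynomial.natDegree_sum_le_of_forall_le _ _ fun s hs => (hterm s hs).1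
  · rw [Polynomial.finsetSum_coeff, map_sum]
    exact Finset.sum_congr rfl fun s hs => (hterm s hs).2

end lead

section step

variable {K S V : Type} [Field K] [Infinite K] [CommRing S] [IsDomain S] [Algebra K S]
  [AddCommGroup V] [Module K V] [FiniteDimensional K V]

/-- `S` is integral over the subalgebra generated by `L(U)`. -/
def IntU (L : V →ₗ[K] S) (U : Submodule K V) : Prop :=
  ∀ f : S, IsIntegral (Algebra.adjoin K (L '' (U : Set V))) f

/-- The relations between the elements of `L(V)` are homogeneous. -/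
def HomL (L : V →ₗ[K] S) : Prop :=
  ∀ (n : ℕ) (v : Fin n → V) (P : MvPolynomial (Fin n) K),
    MvPolynomial.aeval (fun i => L (v i)) P = 0 →
    ∀ m, MvPolynomial.aeval (fun i => L (v i)) (MvPolynomial.homogeneousComponent m P) = 0

theorem IntU.trans {L : V →ₗ[K] S} {U U' : Submodule K V} (h : IntU L U)
    (h' : ∀ u ∈ U, IsIntegral (Algebra.adjoin K (L '' (U' : Set V))) (L u)) : IntU L U' := by
  set B' := Algebra.adjoin K (L '' (U' : Set V)) with hB'
  let C' := integralClosure B' S
  have hle : Algebra.adjoin K (L '' (U : Set V)) ≤ C'.restrictScalars K := by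
    refine Algebra.adjoin_le ?_
    rintro _ ⟨u, hu, rfl⟩
    exact h' u hu
  intro f
  obtain ⟨p, hp, hp0⟩ := h f
  let incl : Algebra.adjoin K (L '' (U : Set V)) →+* C' :=
    (Subalgebra.inclusion hle).toRingHom
  have h1 : IsIntegral C' f := by
    refine ⟨p.map incl, hp.map incl, ?_⟩
    rw [Polynomial.eval₂_map]
    exact hp0
  exact isIntegral_trans f h1

theorem IntU.step {L : V →ₗ[K] S} (hL : HomL L) {U : Submodule K V} (h : IntU L U) {n : ℕ}
    (b : Module.Basis (Fin n) K U)
    (hb : ¬ AlgebraicIndependent K (fun i => L (b i : V))) :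
    ∃ U' : Submodule K V, U' < U ∧ IntU L U' := by
  rw [algebraicIndependent_iff] at hb
  push Not at hb
  obtain ⟨P, hP, hP0⟩ := hb
  have hm : ∃ m, MvPolynomial.homogeneousComponent m P ≠ 0 := by
    by_contra hcon
    push Not at hcon
    apply hP0
    rw [← MvPolynomial.sum_homogeneousComponent P]
    exact Finset.sum_eq_zero fun i _ => hcon i
  obtain ⟨m, hm⟩ := hm
  set F := MvPolynomial.homogeneousComponent m P with hF
  have hFh : F.IsHomogeneous m := MvPolynomial.homogeneousComponent_isHomogeneous m P
  have hF0 : MvPolynomial.aeval (fun i => L (b i : V)) F = 0 := hL n _ P hP m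
  obtain ⟨c, hc⟩ : ∃ c : Fin n → K, MvPolynomial.eval c F ≠ 0 := by
    by_contra hcon
    push Not at hcon
    exact hm (MvPolynomial.funext fun c => by rw [hcon c, map_zero])
  have hc0 : ∃ i, c i ≠ 0 := by
    by_contra hcon
    push Not at hcon
    have hc1 : c = 0 := funext hcon
    have h1 : MvPolynomial.coeff 0 F ≠ 0 := by
      intro h0
      apply hc
      rw [hc1, MvPolynomial.eval_zero, MvPolynomial.constantCoeff_eq]
      exact h0
    have h2 := hFh h1
    rw [map_zero] at h2
    subst h2
    have h3 := MvPolynomial.totalDegree_eq_zero_iff_eq_C.1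
      ((MvPolynomial.totalDegree_zero_iff_isHomogeneous _).2 hFh)
    rw [h3, MvPolynomial.aeval_C] at hF0
    exact h1 ((map_eq_zero (algebraMap K S)).1 hF0)
  obtain ⟨i, hi⟩ := hc0
  let γ : U →ₗ[K] K := b.constr K c
  have hγ : ∀ j, γ (b j) = c j := fun j => b.constr_basis K c j
  let bs : U := (c i)⁻¹ • b i
  have hbs : γ bs = 1 := by
    simp only [bs, map_smul, hγ, smul_eq_mul]
    exact inv_mul_cancel₀ hi
  let U' : Submodule K V := (LinearMap.ker γ).map U.subtype
  have hU' : ∀ u : U, γ u = 0 → (u : V) ∈ U' := fun u hu => ⟨u, hu, rfl⟩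
  refine ⟨U', ?_, ?_⟩
  · refine lt_of_le_of_ne ?_ ?_
    · rintro _ ⟨u, -, rfl⟩
      exact u.2
    · intro heq
      have h1 : (bs : V) ∈ U' := by rw [heq]; exact bs.2
      obtain ⟨u, hu, hu'⟩ := h1
      have h2 : u = bs := Subtype.ext hu'
      have h3 : γ u = 0 := hu
      rw [h2, hbs] at h3
      exact one_ne_zero h3
  · set B' := Algebra.adjoin K (L '' (U' : Set V)) with hB'
    have hmem : ∀ u : U, γ u = 0 → L (u : V) ∈ B' := fun u hu =>
      Algebra.subset_adjoin ⟨_, hU' u hu, rfl⟩
    let w : Fin n → B' := fun j => ⟨L ((b j - c j • bs : U) : V), hmem _ (by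
      rw [map_sub, map_smul, hγ, hbs, smul_eq_mul, mul_one, sub_self])⟩
    have hint : IsIntegral B' (L (bs : V)) := by
      obtain ⟨h1, h2⟩ := lead (B := B') F m hFh w c
      set Q : Polynomial B' := MvPolynomial.aeval (lp w c) F with hQ
      refine ⟨Polynomial.C (algebraMap K B' (MvPolynomial.eval c F)⁻¹) * Q, ?_, ?_⟩
      · refine Polynomial.monic_of_natDegree_le_of_coeff_eq_one m
          ((Polynomial.natDegree_C_mul_le _ _).trans h1) ?_
        rw [Polynomial.coeff_C_mul, h2, ← map_mul, inv_mul_cancel₀ hc, map_one]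
      · rw [Polynomial.eval₂_mul]
        have h3 : Polynomial.eval₂ (algebraMap B' S) (L (bs : V)) Q =
            MvPolynomial.aeval (fun i => L (b i : V)) F := by
          have h4 : Polynomial.eval₂ (algebraMap B' S) (L (bs : V)) Q =
              (Polynomial.aeval (R := B') (L (bs : V))) Q := rfl
          rw [h4, hQ]
          have h5 := (MvPolynomial.comp_aeval_apply (f := lp w c)
            ((Polynomial.aeval (R := B') (L (bs : V))).restrictScalars K) F)
          rw [AlgHom.restrictScalars_apply] at h5
          rw [h5]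
          congr 2
          funext j
          simp only [lp, AlgHom.restrictScalars_apply, map_add, map_mul, Polynomial.aeval_C,
            Polynomial.aeval_X]
          have h6 : algebraMap B' S (w j) = L ((b j - c j • bs : U) : V) := rfl
          have h7 : algebraMap B' S (algebraMap K B' (c j)) = algebraMap K S (c j) := rfl
          rw [h6, h7, Submodule.coe_sub, Submodule.coe_smul, map_sub, map_smul, Algebra.smul_def,
            sub_add_cancel]
        rw [h3, hF0, mul_zero]
    refine h.trans fun u hu => ?_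
    have h1 : L u = L (((⟨u, hu⟩ : U) - γ ⟨u, hu⟩ • bs : U) : V) +
        algebraMap K S (γ ⟨u, hu⟩) * L (bs : V) := by
      rw [Submodule.coe_sub, Submodule.coe_smul, map_sub, map_smul, Algebra.smul_def,
        sub_add_cancel]
    rw [h1]
    have h2 : IsIntegral B' (L (((⟨u, hu⟩ : U) - γ ⟨u, hu⟩ • bs : U) : V)) := by
      have h3 := hmem ((⟨u, hu⟩ : U) - γ ⟨u, hu⟩ • bs) (by
        rw [map_sub, map_smul, hbs, smul_eq_mul, mul_one, sub_self])
      exact isIntegral_algebraMap (R := B') (x := ⟨_, h3⟩)
    have h3 : IsIntegral B' (algebraMap K S (γ ⟨u, hu⟩)) :=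
      isIntegral_algebraMap (R := B') (x := algebraMap K B' (γ ⟨u, hu⟩))
    exact h2.add (h3.mul hint)

theorem exists_minU (L : V →ₗ[K] S) (hL : HomL L)
    (hgen : Algebra.adjoin K (L '' ((⊤ : Submodule K V) : Set V)) = ⊤) :
    ∃ U : Submodule K V, IntU L U ∧
      ∀ (n : ℕ) (b : Module.Basis (Fin n) K U), AlgebraicIndependent K (fun i => L (b i : V)) := by
  have hwf : WellFounded ((· < ·) : Submodule K V → Submodule K V → Prop) := wellFounded_lt
  have hne : {U : Submodule K V | IntU L U}.Nonempty := by
    refine ⟨⊤, fun f => ?_⟩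
    have h1 : f ∈ Algebra.adjoin K (L '' ((⊤ : Submodule K V) : Set V)) := by
      rw [hgen]; exact Algebra.mem_top
    exact isIntegral_algebraMap (x := (⟨f, h1⟩ : Algebra.adjoin K (L '' ((⊤ : Submodule K V) : Set V))))
  refine ⟨hwf.min _ hne, hwf.min_mem _ hne, fun n b => ?_⟩
  by_contra hb
  obtain ⟨U', hlt, hU'⟩ := IntU.step hL (hwf.min_mem _ hne) b hb
  exact hwf.not_lt_min _ hU' hlt

end step

section lin

variable {K σ : Type} [Field K] [Fintype σ]

/-- The linear form with given coefficients. -/
noncomputable def lin (u : σ → K) : MvPolynomial σ K :=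
  ∑ j, MvPolynomial.C (u j) * MvPolynomial.X j

theorem lin_hom (u : σ → K) : (lin u).IsHomogeneous 1 := by
  unfold lin
  refine MvPolynomial.IsHomogeneous.sum _ _ _ fun j _ => ?_
  have := (MvPolynomial.isHomogeneous_C σ (u j)).mul (MvPolynomial.isHomogeneous_X K j)
  rwa [zero_add] at this

theorem lin_single [DecidableEq σ] (j : σ) : lin (Pi.single j (1 : K)) = MvPolynomial.X j := by
  unfold lin
  rw [Finset.sum_eq_single j]
  · rw [Pi.single_eq_same, map_one, one_mul]
  · intro i _ hij
    rw [Pi.single_eq_of_ne hij, map_zero, zero_mul]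
  · intro h
    exact absurd (Finset.mem_univ j) h

/-- The linear map from linear forms to the coordinate ring. -/
noncomputable def linL (I : Ideal (MvPolynomial σ K)) : (σ → K) →ₗ[K] MvPolynomial σ K ⧸ I where
  toFun u := Ideal.Quotient.mk I (lin u)
  map_add' u v := by
    rw [← map_add]
    congr 1
    unfold lin
    rw [← Finset.sum_add_distrib]
    refine Finset.sum_congr rfl fun j _ => ?_
    rw [Pi.add_apply, map_add, add_mul]
  map_smul' c u := by
    have h1 : (RingHom.id K) c • (Ideal.Quotient.mk I (lin u) : MvPolynomial σ K ⧸ I) =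
        Ideal.Quotient.mk I (MvPolynomial.C c) * Ideal.Quotient.mk I (lin u) := by
      rw [RingHom.id_apply]
      exact Algebra.smul_def (A := MvPolynomial σ K ⧸ I) c _
    rw [h1, ← map_mul]
    congr 1
    unfold lin
    rw [Finset.mul_sum]
    refine Finset.sum_congr rfl fun j _ => ?_
    rw [Pi.smul_apply, smul_eq_mul, map_mul, mul_assoc]

theorem linL_apply (I : Ideal (MvPolynomial σ K)) (u : σ → K) :
    linL I u = Ideal.Quotient.mk I (lin u) := rfl

omit [Fintype σ] in
theorem aeval_mk {τ : Type} (I : Ideal (MvPolynomial σ K)) (f : τ → MvPolynomial σ K)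
    (P : MvPolynomial τ K) : MvPolynomial.aeval (fun i => Ideal.Quotient.mk I (f i)) P =
      Ideal.Quotient.mk I (MvPolynomial.aeval f P) :=
  (MvPolynomial.comp_aeval_apply (f := f) (Ideal.Quotient.mkₐ K I) P).symm

omit [Fintype σ] in
theorem comp_aeval {τ : Type} (f : τ → MvPolynomial σ K) (hf : ∀ i, (f i).IsHomogeneous 1)
    (P : MvPolynomial τ K) (m : ℕ) :
    MvPolynomial.homogeneousComponent m (MvPolynomial.aeval f P) =
      MvPolynomial.aeval f (MvPolynomial.homogeneousComponent m P) := by
  have h1 : ∀ i, (MvPolynomial.aeval f (MvPolynomial.homogeneousComponent i P)).IsHomogeneous i := by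
    intro i
    have := (MvPolynomial.homogeneousComponent_isHomogeneous i P).aeval f hf
    rwa [one_mul] at this
  conv_lhs => rw [← MvPolynomial.sum_homogeneousComponent P]
  rw [map_sum, map_sum]
  by_cases hm : m ∈ Finset.range (P.totalDegree + 1)
  · rw [Finset.sum_eq_single m]
    · rw [MvPolynomial.homogeneousComponent_of_mem (h1 m), if_pos rfl]
    · intro i _ him
      rw [MvPolynomial.homogeneousComponent_of_mem (h1 i), if_neg him.symm]
    · intro h
      exact absurd hm h
  · rw [MvPolynomial.homogeneousComponent_eq_zero m P (by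
      rw [Finset.mem_range] at hm
      omega), map_zero]
    refine Finset.sum_eq_zero fun i hi => ?_
    rw [MvPolynomial.homogeneousComponent_of_mem (h1 i), if_neg]
    rintro rfl
    exact hm hi

theorem homL (I : Ideal (MvPolynomial σ K)) (hom : HomI I) : HomL (linL I) := by
  intro n v P hP m
  have h1 : MvPolynomial.aeval (fun i => lin (v i)) P ∈ I := by
    rw [← Ideal.Quotient.eq_zero_iff_mem, ← aeval_mk]
    exact hP
  have h2 := hom _ h1 m
  rw [comp_aeval _ (fun i => lin_hom (v i))] at h2
  rw [← Ideal.Quotient.eq_zero_iff_mem, ← aeval_mk] at h2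
  exact h2

theorem adjoin_linL (I : Ideal (MvPolynomial σ K)) :
    Algebra.adjoin K (linL I '' ((⊤ : Submodule K (σ → K)) : Set (σ → K))) = ⊤ := by
  classical
  rw [eq_top_iff]
  rintro f -
  obtain ⟨f, rfl⟩ := Ideal.Quotient.mk_surjective f
  induction f using MvPolynomial.induction_on with
  | C a => exact (Algebra.adjoin K _).algebraMap_mem a
  | add p q hp hq => rw [map_add]; exact add_mem hp hq
  | mul_X p j hp =>
    rw [map_mul]
    refine mul_mem hp (Algebra.subset_adjoin ⟨Pi.single j 1, trivial, ?_⟩)
    rw [linL_apply, lin_single]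

/-- E1. Linear Noether normalisation. -/
theorem exists_norm [Infinite K] (I : Ideal (MvPolynomial σ K)) (hI : I.IsPrime) (hom : HomI I) :
    ∃ U : Submodule K (σ → K), IntU (linL I) U ∧ ∀ (n : ℕ) (b : Module.Basis (Fin n) K U),
      AlgebraicIndependent K (fun i => linL I (b i : σ → K)) :=
  exists_minU (linL I) (homL I hom) (adjoin_linL I)

end lin

end Pool.Agent.TT.E
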